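import Mathlib

/-!
# Almost all graphs are edge-path-regular

`det`: a graph on many vertices with the quantitative 5-vertex extension property admits a fractional
edge-path-regular system: start from the uniform distribution on the 2-paths joining two nonadjacent
vertices and correct the load of the edges by routing flow through induced 4-cycles.
`bad_all`: all but a vanishing fraction of the graphs on `n` vertices have that property (Chernoff bound).
-/

open Finset

namespace Pool.Agent.Hhelper98.EPR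


section formal

variable {V : Type*} [Fintype V]

/-- weight changes generated by a flow `Ψ` on ordered induced 4-cycles -/
def dlt (Ψ : V → V → V → V → ℚ) (u v w : V) : ℚ :=
  (1 / 2) * ∑ z, (- Ψ u w v z - Ψ v w u z + Ψ u z v w + Ψ v z u w
    - Ψ w u z v - Ψ w v z u + Ψ z u w v + Ψ z v w u)

lemma dlt_symm (Ψ : V → V → V → V → ℚ) (u v w : V) : dlt Ψ u v w = dlt Ψ v u w := by
  unfold dlt
  congr 1
  apply Finset.sum_congr rfl
  intro z _
  ring

lemma dlt_sum (Ψ : V → V → V → V → ℚ) (u v : V) : ∑ w, dlt Ψ u v w = 0 := by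
  unfold dlt
  rw [← Finset.mul_sum]
  simp only [Finset.sum_add_distrib, Finset.sum_sub_distrib, Finset.sum_neg_distrib]
  have hc : ∀ f : V → V → ℚ, ∑ x, ∑ y, f x y = ∑ x, ∑ y, f y x := fun f => Finset.sum_comm
  rw [hc (fun w z => Ψ u z v w), hc (fun w z => Ψ v z u w), hc (fun w z => Ψ z u w v),
    hc (fun w z => Ψ z v w u)]
  ring

lemma dlt_load (Ψ : V → V → V → V → ℚ) (u w : V) :
    ∑ v, dlt Ψ u v w + ∑ v, dlt Ψ w v u =
      (∑ x, ∑ y, Ψ x y u w - ∑ x, ∑ y, Ψ u w x y) + (∑ x, ∑ y, Ψ x y w u - ∑ x, ∑ y, Ψ w u x y) := by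
  unfold dlt
  rw [← Finset.mul_sum, ← Finset.mul_sum]
  simp only [Finset.sum_add_distrib, Finset.sum_sub_distrib, Finset.sum_neg_distrib]
  have hc : ∀ f : V → V → ℚ, ∑ x, ∑ y, f x y = ∑ x, ∑ y, f y x := fun f => Finset.sum_comm
  rw [hc (fun v z => Ψ u z v w), hc (fun v z => Ψ v z u w), hc (fun v z => Ψ w u z v),
    hc (fun v z => Ψ w v z u), hc (fun v z => Ψ z u w v), hc (fun v z => Ψ z v w u),
    hc (fun v z => Ψ u w z v), hc (fun v z => Ψ u v z w), hc (fun v z => Ψ z w u v),
    hc (fun v z => Ψ z v u w), hc (fun v z => Ψ w z v u), hc (fun v z => Ψ v z w u)]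
  ring

end formal

section graph

set_option linter.unusedSectionVars false

variable {V : Type*} [Fintype V] [DecidableEq V] (G : SimpleGraph V) [DecidableRel G.Adj]

def ad (u v : V) : ℚ := if G.Adj u v then 1 else 0
def na (u v : V) : ℚ := if u ≠ v ∧ ¬ G.Adj u v then 1 else 0
def DD (u v : V) : ℚ := ∑ w, ad G u w * ad G w v
def L0 (u w : V) : ℚ :=
  ∑ v, na G u v * ad G v w / DD G u v + ∑ v, na G w v * ad G v u / DD G w v
def C4 (a b x y : V) : ℚ :=
  ad G a b * ad G b x * ad G x y * ad G y a * na G a x * na G b y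
def NN (a b c d : V) : ℚ := ∑ x, ∑ y, C4 G a b x y * C4 G c d x y
def WW (a b c d : V) : ℚ := 1 / (NN G a b c d + NN G b a c d)
def mm : ℚ := ∑ u, ∑ v, ad G u v
def mb : ℚ := ∑ u, ∑ v, na G u v
def rr (u v : V) : ℚ := ad G u v * (2 * mb G / mm G - L0 G u v)
def Psi (a b x y : V) : ℚ :=
  C4 G a b x y * ((1 / mm G) * ∑ c, ∑ d, C4 G c d x y * rr G c d * WW G a b c d
    + (1 / mm G) * ∑ c, ∑ d, C4 G c d a b * rr G x y * WW G c d x y)

lemma ad_symm (u v : V) : ad G u v = ad G v u := by
  unfold ad; simp only [G.adj_comm]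

lemma na_symm (u v : V) : na G u v = na G v u := by
  unfold na; simp only [G.adj_comm, ne_comm]

lemma ad_nonneg (u v : V) : 0 ≤ ad G u v := by unfold ad; split_ifs <;> norm_num
lemma na_nonneg (u v : V) : 0 ≤ na G u v := by unfold na; split_ifs <;> norm_num
lemma ad_le (u v : V) : ad G u v ≤ 1 := by unfold ad; split_ifs <;> norm_num
lemma na_le (u v : V) : na G u v ≤ 1 := by unfold na; split_ifs <;> norm_num

lemma C4_symm (a b x y : V) : C4 G a b x y = C4 G x y a b := by
  unfold C4
  rw [na_symm G x a, na_symm G y b]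
  ring

lemma C4_rev (a b x y : V) : C4 G a b x y = C4 G b a y x := by
  unfold C4
  rw [ad_symm G b a, ad_symm G a y, ad_symm G y x, ad_symm G x b]
  ring

lemma C4_nonneg (a b x y : V) : 0 ≤ C4 G a b x y := by
  unfold C4
  have h1 := ad_nonneg G
  have h2 := na_nonneg G
  exact mul_nonneg (mul_nonneg (mul_nonneg (mul_nonneg (mul_nonneg (h1 _ _) (h1 _ _)) (h1 _ _)) (h1 _ _)) (h2 _ _)) (h2 _ _)

lemma C4_cases (a b x y : V) : (C4 G a b x y = 1 ∧ G.Adj a b ∧ G.Adj b x ∧ G.Adj x y ∧ G.Adj y a
    ∧ (a ≠ x ∧ ¬ G.Adj a x) ∧ (b ≠ y ∧ ¬ G.Adj b y)) ∨ C4 G a b x y = 0 := by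
  unfold C4 ad na
  by_cases h1 : G.Adj a b
  · by_cases h2 : G.Adj b x
    · by_cases h3 : G.Adj x y
      · by_cases h4 : G.Adj y a
        · by_cases h5 : a ≠ x ∧ ¬ G.Adj a x
          · by_cases h6 : b ≠ y ∧ ¬ G.Adj b y
            · left
              simp [h1, h2, h3, h4, h5, h6]
            · right; rw [if_neg h6]; ring
          · right; rw [if_neg h5]; ring
        · right; rw [if_neg h4]; ring
      · right; rw [if_neg h3]; ring
    · right; rw [if_neg h2]; ring
  · right; rw [if_neg h1]; ring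

lemma C4_le_ad (a b x y : V) : C4 G a b x y ≤ ad G a b := by
  rcases C4_cases G a b x y with h | h
  · rw [h.1]; unfold ad; rw [if_pos h.2.1]
  · rw [h]; exact ad_nonneg G _ _

lemma NN_nonneg (a b c d : V) : 0 ≤ NN G a b c d := by
  unfold NN
  exact Finset.sum_nonneg (fun x _ => Finset.sum_nonneg (fun y _ =>
    mul_nonneg (C4_nonneg G _ _ _ _) (C4_nonneg G _ _ _ _)))

lemma NN_rev (a b c d : V) : NN G b a d c = NN G a b c d := by
  unfold NN
  rw [Finset.sum_comm]
  apply Finset.sum_congr rfl; intro x _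
  apply Finset.sum_congr rfl; intro y _
  rw [C4_rev G b a, C4_rev G d c]

lemma WW_nonneg (a b c d : V) : 0 ≤ WW G a b c d := by
  unfold WW
  have := NN_nonneg G a b c d
  have := NN_nonneg G b a c d
  positivity

lemma WW_rev1 (a b c d : V) : WW G b a c d = WW G a b c d := by
  unfold WW; rw [add_comm]

lemma WW_rev2 (a b c d : V) : WW G a b d c = WW G a b c d := by
  unfold WW
  rw [← NN_rev G a b d c, ← NN_rev G b a d c, add_comm]

lemma L0_symm (u w : V) : L0 G u w = L0 G w u := by
  unfold L0; rw [add_comm]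

lemma rr_symm (u w : V) : rr G u w = rr G w u := by
  unfold rr; rw [L0_symm, ad_symm]

lemma sum4 (F : V → V → V → V → ℚ) :
    ∑ x, ∑ y, ∑ c, ∑ d, F x y c d = ∑ x, ∑ y, ∑ c, ∑ d, F c d x y := by
  have h1 : ∀ F : V → V → V → V → ℚ, ∑ x, ∑ y, ∑ c, ∑ d, F x y c d
      = ∑ p : V × V, ∑ q : V × V, F p.1 p.2 q.1 q.2 := by
    intro F
    simp only [Fintype.sum_prod_type]
  rw [h1, h1, Finset.sum_comm]

lemma sum_rr (hm : mm G ≠ 0) (hD : ∀ u v, u ≠ v → ¬ G.Adj u v → DD G u v ≠ 0) :
    ∑ c, ∑ d, rr G c d = 0 := by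
  have h1 : ∑ u, ∑ w, ad G u w * ∑ v, na G u v * ad G v w / DD G u v = mb G := by
    unfold mb
    apply Finset.sum_congr rfl; intro u _
    simp only [Finset.mul_sum]
    rw [Finset.sum_comm]
    apply Finset.sum_congr rfl; intro v _
    by_cases h : u ≠ v ∧ ¬ G.Adj u v
    · have h2 := hD u v h.1 h.2
      have h3 : na G u v = 1 := by unfold na; rw [if_pos h]
      rw [h3]
      have : ∀ w, ad G u w * (1 * ad G v w / DD G u v) = (ad G u w * ad G w v) / DD G u v := by
        intro w; rw [ad_symm G w v]; ring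
      simp only [this]
      rw [← Finset.sum_div]
      change DD G u v / DD G u v = 1
      exact div_self h2
    · have h3 : na G u v = 0 := by unfold na; rw [if_neg h]
      rw [h3]
      simp
  have h2 : ∑ u, ∑ w, ad G u w * ∑ v, na G w v * ad G v u / DD G w v = mb G := by
    rw [← h1, Finset.sum_comm]
    apply Finset.sum_congr rfl; intro u _
    apply Finset.sum_congr rfl; intro w _
    rw [ad_symm]
  have h3 : ∑ c, ∑ d, rr G c d = 2 * mb G / mm G * mm G - (mb G + mb G) := by
    have e : ∀ c d, rr G c d = 2 * mb G / mm G * ad G c d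
        - (ad G c d * ∑ v, na G c v * ad G v d / DD G c v
          + ad G c d * ∑ v, na G d v * ad G v c / DD G d v) := by
      intro c d; unfold rr L0; ring
    have e2 : ∑ c, ∑ d, 2 * mb G / mm G * ad G c d = 2 * mb G / mm G * mm G := by
      unfold mm
      simp only [Finset.mul_sum]
    simp only [e, Finset.sum_sub_distrib, Finset.sum_add_distrib]
    rw [h1, h2, e2]
  rw [h3]
  field_simp
  ring

lemma net_flow (hm : mm G ≠ 0) (hD : ∀ u v, u ≠ v → ¬ G.Adj u v → DD G u v ≠ 0)
    (hN : ∀ a b c d, G.Adj a b → G.Adj c d → 0 < NN G a b c d + NN G b a c d)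
    (a b : V) (hab : G.Adj a b) :
    (∑ x, ∑ y, Psi G x y a b - ∑ x, ∑ y, Psi G a b x y)
      + (∑ x, ∑ y, Psi G x y b a - ∑ x, ∑ y, Psi G b a x y) = rr G a b := by
  -- split Psi
  set P1 : V → V → V → V → ℚ := fun a b x y =>
    C4 G a b x y * ((1 / mm G) * ∑ c, ∑ d, C4 G c d x y * rr G c d * WW G a b c d) with hP1
  set P2 : V → V → V → V → ℚ := fun a b x y =>
    C4 G a b x y * ((1 / mm G) * ∑ c, ∑ d, C4 G c d a b * rr G x y * WW G c d x y) with hP2
  have hsplit : ∀ a b x y, Psi G a b x y = P1 a b x y + P2 a b x y := by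
    intro a b x y; unfold Psi; rw [hP1, hP2]; ring
  have hcancel : ∀ a b, ∑ x, ∑ y, P1 x y a b = ∑ x, ∑ y, P2 a b x y := by
    intro a b
    have e1 : ∑ x, ∑ y, P1 x y a b = ∑ x, ∑ y, ∑ c, ∑ d,
        C4 G x y a b * C4 G c d a b * rr G c d * WW G x y c d * (1 / mm G) := by
      apply Finset.sum_congr rfl; intro x _
      apply Finset.sum_congr rfl; intro y _
      simp only [hP1, Finset.mul_sum]
      apply Finset.sum_congr rfl; intro c _
      apply Finset.sum_congr rfl; intro d _
      ring
    have e2 : ∑ x, ∑ y, P2 a b x y = ∑ x, ∑ y, ∑ c, ∑ d,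
        C4 G a b x y * C4 G c d a b * rr G x y * WW G c d x y * (1 / mm G) := by
      apply Finset.sum_congr rfl; intro x _
      apply Finset.sum_congr rfl; intro y _
      simp only [hP2, Finset.mul_sum]
      apply Finset.sum_congr rfl; intro c _
      apply Finset.sum_congr rfl; intro d _
      ring
    rw [e1, e2, sum4]
    apply Finset.sum_congr rfl; intro x _
    apply Finset.sum_congr rfl; intro y _
    apply Finset.sum_congr rfl; intro c _
    apply Finset.sum_congr rfl; intro d _
    rw [C4_symm G a b x y]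
    ring
  -- inflow of second legs
  have hin : ∀ a b, ∑ x, ∑ y, P2 x y a b
      = (1 / mm G) * rr G a b * ∑ c, ∑ d, WW G c d a b * NN G c d a b := by
    intro a b
    have e1 : ∑ x, ∑ y, P2 x y a b = ∑ x, ∑ y, ∑ c, ∑ d,
        C4 G x y a b * C4 G c d x y * rr G a b * WW G c d a b * (1 / mm G) := by
      apply Finset.sum_congr rfl; intro x _
      apply Finset.sum_congr rfl; intro y _
      simp only [hP2, Finset.mul_sum]
      apply Finset.sum_congr rfl; intro c _
      apply Finset.sum_congr rfl; intro d _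
      ring
    rw [e1, sum4, Finset.mul_sum]
    apply Finset.sum_congr rfl; intro x _
    rw [Finset.mul_sum]
    apply Finset.sum_congr rfl; intro y _
    unfold NN
    simp only [Finset.mul_sum]
    apply Finset.sum_congr rfl; intro c _
    apply Finset.sum_congr rfl; intro d _
    rw [C4_symm G c d a b]
    ring
  -- outflow of first legs
  have hout : ∀ a b, ∑ x, ∑ y, P1 a b x y
      = (1 / mm G) * ∑ c, ∑ d, rr G c d * (WW G a b c d * NN G a b c d) := by
    intro a b
    have e1 : ∑ x, ∑ y, P1 a b x y = ∑ x, ∑ y, ∑ c, ∑ d,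
        C4 G a b x y * C4 G c d x y * rr G c d * WW G a b c d * (1 / mm G) := by
      apply Finset.sum_congr rfl; intro x _
      apply Finset.sum_congr rfl; intro y _
      simp only [hP1, Finset.mul_sum]
      apply Finset.sum_congr rfl; intro c _
      apply Finset.sum_congr rfl; intro d _
      ring
    rw [e1, sum4, Finset.mul_sum]
    apply Finset.sum_congr rfl; intro x _
    rw [Finset.mul_sum]
    apply Finset.sum_congr rfl; intro y _
    unfold NN
    simp only [Finset.mul_sum]
    apply Finset.sum_congr rfl; intro c _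
    apply Finset.sum_congr rfl; intro d _
    ring
  have hWN : ∀ c d a b, G.Adj c d → G.Adj a b →
      WW G c d a b * NN G c d a b + WW G c d b a * NN G c d b a = 1 := by
    intro c d a b hcd hab
    rw [WW_rev2 G c d a b, ← NN_rev G c d b a]
    have := hN c d a b hcd hab
    unfold WW
    rw [← mul_add]
    field_simp
  have hWN' : ∀ c d a b, G.Adj c d → G.Adj a b →
      WW G c d a b * NN G c d a b + WW G d c a b * NN G d c a b = 1 := by
    intro c d a b hcd hab
    rw [WW_rev1 G c d a b]
    have := hN c d a b hcd hab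
    unfold WW
    rw [← mul_add]
    field_simp
  have hNN0 : ∀ c d a b, ¬ G.Adj c d → NN G c d a b = 0 := by
    intro c d a b h
    unfold NN
    apply Finset.sum_eq_zero; intro x _
    apply Finset.sum_eq_zero; intro y _
    have : C4 G c d x y = 0 := by
      unfold C4 ad; rw [if_neg h]; ring
    rw [this]; ring
  have hsum : ∑ c, ∑ d, WW G c d a b * NN G c d a b + ∑ c, ∑ d, WW G c d b a * NN G c d b a = mm G := by
    rw [← Finset.sum_add_distrib]
    unfold mm
    apply Finset.sum_congr rfl; intro c _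
    rw [← Finset.sum_add_distrib]
    apply Finset.sum_congr rfl; intro d _
    by_cases h : G.Adj c d
    · rw [hWN c d a b h hab]; unfold ad; rw [if_pos h]
    · rw [hNN0 _ _ _ _ h, hNN0 _ _ _ _ h]; unfold ad; rw [if_neg h]; ring
  have hsum2 : ∑ c, ∑ d, rr G c d * (WW G a b c d * NN G a b c d)
      + ∑ c, ∑ d, rr G c d * (WW G b a c d * NN G b a c d) = 0 := by
    rw [← sum_rr G hm hD, ← Finset.sum_add_distrib]
    apply Finset.sum_congr rfl; intro c _
    rw [← Finset.sum_add_distrib]
    apply Finset.sum_congr rfl; intro d _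
    by_cases h : G.Adj c d
    · rw [← mul_add, hWN' a b c d hab h, mul_one]
    · have : rr G c d = 0 := by unfold rr ad; rw [if_neg h]; ring
      rw [this]; ring
  simp only [hsplit, Finset.sum_add_distrib]
  rw [hcancel a b, hcancel b a, hin a b, hin b a, hout a b, hout b a, rr_symm G b a]
  have e3 : (1 / mm G) * rr G a b * ∑ c, ∑ d, WW G c d a b * NN G c d a b
      + (1 / mm G) * rr G a b * ∑ c, ∑ d, WW G c d b a * NN G c d b a = rr G a b := by
    rw [← mul_add, hsum]
    field_simp
  have e4 : (1 / mm G) * ∑ c, ∑ d, rr G c d * (WW G a b c d * NN G a b c d)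
      + (1 / mm G) * ∑ c, ∑ d, rr G c d * (WW G b a c d * NN G b a c d) = 0 := by
    rw [← mul_add, hsum2, mul_zero]
  linarith

end graph

section bounds

set_option linter.unusedSectionVars false

variable {V : Type*} [Fintype V] [DecidableEq V] (G : SimpleGraph V) [DecidableRel G.Adj]

/-- quantitative extension property -/
def Ext (ε : ℚ) : Prop := ∀ S : Finset V, S.card ≤ 5 → ∀ T ⊆ S,
  |((univ.filter (fun y => y ∉ S ∧ ∀ s ∈ S, (G.Adj s y ↔ s ∈ T))).card : ℚ)
    - (Fintype.card V : ℚ) / 2 ^ S.card| ≤ ε * Fintype.card V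

abbrev eps : ℚ := 1 / 100000

variable {G}

lemma deg_bound (h : Ext G eps) (u : V) :
    |∑ v, ad G u v - (Fintype.card V : ℚ) / 2| ≤ eps * Fintype.card V := by
  have h1 := h {u} (by simp) {u} (by simp)
  have h2 : ((univ.filter (fun y => y ∉ ({u} : Finset V) ∧
      ∀ s ∈ ({u} : Finset V), (G.Adj s y ↔ s ∈ ({u} : Finset V)))).card : ℚ) = ∑ v, ad G u v := by
    rw [Finset.card_filter]
    push_cast
    apply Finset.sum_congr rfl; intro v _
    unfold ad
    by_cases h3 : G.Adj u v
    · have : v ≠ u := h3.ne'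
      simp [h3, this]
    · simp [h3]
  rw [h2] at h1
  simpa using h1

lemma DD_bound (h : Ext G eps) (u v : V) (huv : u ≠ v) :
    |DD G u v - (Fintype.card V : ℚ) / 4| ≤ eps * Fintype.card V := by
  have h1 := h {u, v} (by rw [Finset.card_pair huv]; norm_num) {u, v} (by simp)
  rw [Finset.card_pair huv] at h1
  have h2 : ((univ.filter (fun y => y ∉ ({u, v} : Finset V) ∧
      ∀ s ∈ ({u, v} : Finset V), (G.Adj s y ↔ s ∈ ({u, v} : Finset V)))).card : ℚ) = DD G u v := by
    rw [Finset.card_filter]
    push_cast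
    unfold DD
    apply Finset.sum_congr rfl; intro w _
    unfold ad
    by_cases h3 : G.Adj u w
    · by_cases h4 : G.Adj v w
      · have h5 : w ≠ u := h3.ne'
        have h6 : w ≠ v := h4.ne'
        simp [h3, h4, h4.symm, h5, h6]
      · have : ¬ G.Adj w v := fun h => h4 h.symm
        simp [h4, this]
    · simp [h3]
  rw [h2] at h1
  norm_num at h1 ⊢
  exact h1

lemma EE_bound (h : Ext G eps) (u w : V) (huw : G.Adj u w) :
    |∑ v, na G u v * ad G v w - (Fintype.card V : ℚ) / 4| ≤ eps * Fintype.card V := by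
  have hne := huw.ne
  have h1 := h {u, w} (by rw [Finset.card_pair hne]; norm_num) {w} (by simp)
  rw [Finset.card_pair hne] at h1
  have h2 : ((univ.filter (fun y => y ∉ ({u, w} : Finset V) ∧
      ∀ s ∈ ({u, w} : Finset V), (G.Adj s y ↔ s ∈ ({w} : Finset V)))).card : ℚ)
      = ∑ v, na G u v * ad G v w := by
    rw [Finset.card_filter]
    push_cast
    apply Finset.sum_congr rfl; intro v _
    unfold ad na
    by_cases h3 : G.Adj v w
    · by_cases h4 : G.Adj u v
      · simp [h4, hne]
      · by_cases h5 : u = v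
        · subst h5; simp
        · have h6 : v ≠ w := h3.ne
          have h7 : v ≠ u := fun h => h5 h.symm
          simp [h3, h3.symm, h4, h5, h6, h7, hne]
    · have : ¬ G.Adj w v := fun h => h3 h.symm
      simp [h3, this]
  rw [h2] at h1
  norm_num at h1 ⊢
  exact h1

lemma NN_bound (h : Ext G eps) (a b c d : V) (hab : G.Adj a b) (hcd : G.Adj c d) (hbc : b ≠ c)
    (had : a ≠ d) (hn : (0 : ℚ) ≤ Fintype.card V) :
    ((Fintype.card V : ℚ) / 16 - eps * Fintype.card V)
      * ((Fintype.card V : ℚ) / 32 - eps * Fintype.card V) ≤ NN G a b c d := by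
  set n : ℚ := (Fintype.card V : ℚ) with hnn
  set S1 : Finset V := {a, b, c, d} with hS1
  set T1 : Finset V := {b, d} with hT1
  have hS1c : S1.card ≤ 4 := Finset.card_le_four
  have hT1s : T1 ⊆ S1 := by
    intro x hx; simp [hT1] at hx; simp [hS1]; tauto
  set X := univ.filter (fun y => y ∉ S1 ∧ ∀ s ∈ S1, (G.Adj s y ↔ s ∈ T1)) with hX
  have hXc : n / 16 - eps * n ≤ (X.card : ℚ) := by
    have h1 := (abs_le.1 (h S1 (by omega) T1 hT1s)).1
    have h2 : n / 16 ≤ n / 2 ^ S1.card := by
      apply div_le_div_of_nonneg_left hn (by positivity)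
      calc (2 : ℚ) ^ S1.card ≤ 2 ^ 4 := pow_le_pow_right₀ (by norm_num) hS1c
        _ = 16 := by norm_num
    linarith
  have hY : ∀ x ∈ X, n / 32 - eps * n ≤ ∑ y, C4 G a b x y * C4 G c d x y := by
    intro x hx
    rw [hX, Finset.mem_filter] at hx
    obtain ⟨_, hxS, hxT⟩ := hx
    set S2 : Finset V := insert x S1 with hS2
    set T2 : Finset V := {a, c, x} with hT2
    have hS2c : S2.card ≤ 5 := (Finset.card_insert_le _ _).trans (by omega)
    have hT2s : T2 ⊆ S2 := by
      intro y hy; simp [hT2] at hy; simp [hS2, hS1]; tauto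
    set Y := univ.filter (fun y => y ∉ S2 ∧ ∀ s ∈ S2, (G.Adj s y ↔ s ∈ T2)) with hYd
    have hYc : n / 32 - eps * n ≤ (Y.card : ℚ) := by
      have h1 := (abs_le.1 (h S2 hS2c T2 hT2s)).1
      have h2 : n / 32 ≤ n / 2 ^ S2.card := by
        apply div_le_div_of_nonneg_left hn (by positivity)
        calc (2 : ℚ) ^ S2.card ≤ 2 ^ 5 := pow_le_pow_right₀ (by norm_num) hS2c
          _ = 32 := by norm_num
      linarith
    have hle : ∀ y ∈ Y, (1 : ℚ) ≤ C4 G a b x y * C4 G c d x y := by
      intro y hy
      rw [hYd, Finset.mem_filter] at hy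
      obtain ⟨_, hyS, hyT⟩ := hy
      have xa : x ≠ a := fun h => hxS (by simp [hS1, h])
      have xb : x ≠ b := fun h => hxS (by simp [hS1, h])
      have xc : x ≠ c := fun h => hxS (by simp [hS1, h])
      have xd : x ≠ d := fun h => hxS (by simp [hS1, h])
      have ya : y ≠ a := fun h => hyS (by simp [hS2, hS1, h])
      have yb : y ≠ b := fun h => hyS (by simp [hS2, hS1, h])
      have yc : y ≠ c := fun h => hyS (by simp [hS2, hS1, h])
      have yd : y ≠ d := fun h => hyS (by simp [hS2, hS1, h])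
      have hbx : G.Adj b x := (hxT b (by simp [hS1])).2 (by simp [hT1])
      have hdx : G.Adj d x := (hxT d (by simp [hS1])).2 (by simp [hT1])
      have hax : ¬ G.Adj a x := fun h => by
        have := (hxT a (by simp [hS1])).1 h
        simp [hT1] at this
        rcases this with h1 | h1
        · exact hab.ne h1
        · exact had h1
      have hcx : ¬ G.Adj c x := fun h => by
        have := (hxT c (by simp [hS1])).1 h
        simp [hT1] at this
        rcases this with h1 | h1
        · exact hbc h1.symm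
        · exact hcd.ne h1
      have hay : G.Adj a y := (hyT a (by simp [hS2, hS1])).2 (by simp [hT2])
      have hcy : G.Adj c y := (hyT c (by simp [hS2, hS1])).2 (by simp [hT2])
      have hxy : G.Adj x y := (hyT x (by simp [hS2])).2 (by simp [hT2])
      have hby : ¬ G.Adj b y := fun h => by
        have := (hyT b (by simp [hS2, hS1])).1 h
        simp [hT2] at this
        rcases this with h1 | h1 | h1
        · exact hab.ne h1.symm
        · exact hbc h1
        · exact xb h1.symm
      have hdy : ¬ G.Adj d y := fun h => by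
        have := (hyT d (by simp [hS2, hS1])).1 h
        simp [hT2] at this
        rcases this with h1 | h1 | h1
        · exact had h1.symm
        · exact hcd.ne h1.symm
        · exact xd h1.symm
      have e1 : C4 G a b x y = 1 := by
        unfold C4 ad na
        simp [hab, hbx, hxy, hay.symm, hax, hby, xa.symm, yb.symm]
      have e2 : C4 G c d x y = 1 := by
        unfold C4 ad na
        simp [hcd, hdx, hxy, hcy.symm, hcx, hdy, xc.symm, yd.symm]
      rw [e1, e2]; norm_num
    calc n / 32 - eps * n ≤ (Y.card : ℚ) := hYc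
      _ = ∑ y ∈ Y, (1 : ℚ) := by simp
      _ ≤ ∑ y ∈ Y, C4 G a b x y * C4 G c d x y := Finset.sum_le_sum hle
      _ ≤ ∑ y, C4 G a b x y * C4 G c d x y :=
        Finset.sum_le_sum_of_subset_of_nonneg (Finset.subset_univ _)
          (fun y _ _ => mul_nonneg (C4_nonneg G _ _ _ _) (C4_nonneg G _ _ _ _))
  have h32 : 0 ≤ n / 32 - eps * n := by
    have : n / 32 - eps * n = n * (1 / 32 - eps) := by ring
    rw [this]
    exact mul_nonneg hn (by norm_num)
  calc (n / 16 - eps * n) * (n / 32 - eps * n) ≤ (X.card : ℚ) * (n / 32 - eps * n) := by gcongr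
    _ = ∑ x ∈ X, (n / 32 - eps * n) := by rw [Finset.sum_const, nsmul_eq_mul]
    _ ≤ ∑ x ∈ X, ∑ y, C4 G a b x y * C4 G c d x y := Finset.sum_le_sum hY
    _ ≤ NN G a b c d := by
      unfold NN
      exact Finset.sum_le_sum_of_subset_of_nonneg (Finset.subset_univ _)
          (fun x _ _ => Finset.sum_nonneg (fun y _ => mul_nonneg (C4_nonneg G _ _ _ _) (C4_nonneg G _ _ _ _)))

lemma NN2_bound (h : Ext G eps) (hn : (1000000 : ℚ) ≤ Fintype.card V) (a b c d : V)
    (hab : G.Adj a b) (hcd : G.Adj c d) :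
    (195 / 100000 : ℚ) * (Fintype.card V : ℚ) ^ 2 ≤ NN G a b c d + NN G b a c d := by
  have hn0 : (0 : ℚ) ≤ Fintype.card V := by linarith
  have key : (195 / 100000 : ℚ) * (Fintype.card V : ℚ) ^ 2 ≤
      ((Fintype.card V : ℚ) / 16 - eps * Fintype.card V)
      * ((Fintype.card V : ℚ) / 32 - eps * Fintype.card V) := by
    nlinarith [sq_nonneg (Fintype.card V : ℚ)]
  by_cases hc : b ≠ c ∧ a ≠ d
  · have h1 := NN_bound h a b c d hab hcd hc.1 hc.2 hn0
    have h2 := NN_nonneg G b a c d
    linarith
  · have hac : a ≠ c := by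
      rintro rfl
      apply hc
      exact ⟨hab.ne', hcd.ne⟩
    have hbd : b ≠ d := by
      rintro rfl
      apply hc
      exact ⟨hcd.ne', hab.ne⟩
    have h1 := NN_bound h b a c d hab.symm hcd hac hbd hn0
    have h2 := NN_nonneg G a b c d
    linarith

lemma mm_bound (h : Ext G eps) : |mm G - (Fintype.card V : ℚ) ^ 2 / 2| ≤ eps * (Fintype.card V : ℚ) ^ 2 := by
  have h1 : mm G - (Fintype.card V : ℚ) ^ 2 / 2 = ∑ u : V, (∑ v, ad G u v - (Fintype.card V : ℚ) / 2) := by
    rw [Finset.sum_sub_distrib]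
    unfold mm
    simp
    ring
  rw [h1]
  calc _ ≤ ∑ u : V, |∑ v, ad G u v - (Fintype.card V : ℚ) / 2| := Finset.abs_sum_le_sum_abs _ _
    _ ≤ ∑ u : V, eps * Fintype.card V := Finset.sum_le_sum (fun u _ => deg_bound h u)
    _ = _ := by simp; ring

lemma mb_eq : mb G = (Fintype.card V : ℚ) ^ 2 - Fintype.card V - mm G := by
  have h1 : ∀ u v : V, na G u v = 1 - (if u = v then 1 else 0) - ad G u v := by
    intro u v
    unfold na ad
    by_cases h : u = v
    · subst h; simp
    · by_cases h2 : G.Adj u v <;> simp [h, h2]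
  unfold mb mm
  simp only [h1, Finset.sum_sub_distrib]
  simp
  ring

lemma ratio_bound (h : Ext G eps) (hn : (1000000 : ℚ) ≤ Fintype.card V) :
    |2 * mb G / mm G - 2| ≤ 9 / 100000 ∧ 0 < mm G := by
  set n : ℚ := (Fintype.card V : ℚ) with hnn
  have h1 := abs_le.1 (mm_bound h)
  have h2 : mb G = n ^ 2 - n - mm G := mb_eq
  have hmm : 0 < mm G := by nlinarith [h1.1]
  refine ⟨?_, hmm⟩
  have e : 2 * mb G / mm G - 2 = (2 * (n ^ 2 - n) - 4 * mm G) / mm G := by
    rw [h2]; field_simp; ring
  rw [e, abs_div, abs_of_pos hmm, div_le_iff₀ hmm, abs_le]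
  constructor
  · nlinarith [h1.1, h1.2]
  · nlinarith [h1.1, h1.2]

lemma half_L0 (h : Ext G eps) (hn : (1000000 : ℚ) ≤ Fintype.card V) (u w : V) (huw : G.Adj u w) :
    |∑ v, na G u v * ad G v w / DD G u v - 1| ≤ 9 / 100000 := by
  set n : ℚ := (Fintype.card V : ℚ) with hnn
  have hE := abs_le.1 (EE_bound h u w huw)
  have hpos1 : 0 < n / 4 - eps * n := by nlinarith
  have hpos2 : 0 < n / 4 + eps * n := by nlinarith
  have hle : ∑ v, na G u v * ad G v w / DD G u v ≤ (∑ v, na G u v * ad G v w) / (n / 4 - eps * n) := by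
    rw [Finset.sum_div]
    apply Finset.sum_le_sum
    intro v _
    by_cases hv : u ≠ v ∧ ¬ G.Adj u v
    · have hD := abs_le.1 (DD_bound h u v hv.1)
      apply div_le_div_of_nonneg_left (mul_nonneg (na_nonneg G _ _) (ad_nonneg G _ _)) hpos1
      linarith [hD.1]
    · have : na G u v = 0 := by unfold na; rw [if_neg hv]
      rw [this]; simp
  have hge : (∑ v, na G u v * ad G v w) / (n / 4 + eps * n) ≤ ∑ v, na G u v * ad G v w / DD G u v := by
    rw [Finset.sum_div]
    apply Finset.sum_le_sum
    intro v _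
    by_cases hv : u ≠ v ∧ ¬ G.Adj u v
    · have hD := abs_le.1 (DD_bound h u v hv.1)
      apply div_le_div_of_nonneg_left (mul_nonneg (na_nonneg G _ _) (ad_nonneg G _ _))
      · linarith [hD.1]
      · linarith [hD.2]
    · have : na G u v = 0 := by unfold na; rw [if_neg hv]
      rw [this]; simp
  rw [abs_le]
  constructor
  · have : 1 - 9 / 100000 ≤ (∑ v, na G u v * ad G v w) / (n / 4 + eps * n) := by
      rw [le_div_iff₀ hpos2]
      nlinarith [hE.1]
    linarith
  · have : (∑ v, na G u v * ad G v w) / (n / 4 - eps * n) ≤ 1 + 9 / 100000 := by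
      rw [div_le_iff₀ hpos1]
      nlinarith [hE.2]
    linarith

lemma rr_bound (h : Ext G eps) (hn : (1000000 : ℚ) ≤ Fintype.card V) (u w : V) :
    |rr G u w| ≤ 27 / 100000 := by
  unfold rr
  by_cases huw : G.Adj u w
  · have h1 := abs_le.1 (half_L0 h hn u w huw)
    have h2 := abs_le.1 (half_L0 h hn w u huw.symm)
    have h3 := abs_le.1 (ratio_bound h hn).1
    have : ad G u w = 1 := by unfold ad; rw [if_pos huw]
    rw [this, one_mul]
    unfold L0
    rw [abs_le]
    constructor <;> linarith [h1.1, h1.2, h2.1, h2.2, h3.1, h3.2]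
  · have : ad G u w = 0 := by unfold ad; rw [if_neg huw]
    rw [this]; norm_num

lemma WW_bound (h : Ext G eps) (hn : (1000000 : ℚ) ≤ Fintype.card V) (a b c d : V)
    (hab : G.Adj a b) (hcd : G.Adj c d) :
    WW G a b c d ≤ 1 / ((195 / 100000 : ℚ) * (Fintype.card V : ℚ) ^ 2) := by
  have h1 := NN2_bound h hn a b c d hab hcd
  unfold WW
  have : (0 : ℚ) < (195 / 100000 : ℚ) * (Fintype.card V : ℚ) ^ 2 := by positivity
  exact one_div_le_one_div_of_le this h1

lemma avg_bound (h : Ext G eps) (hn : (1000000 : ℚ) ≤ Fintype.card V) (F : V → V → ℚ) (K : ℚ)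
    (hF : ∀ c d, |F c d| ≤ ad G c d * K) : |(1 / mm G) * ∑ c, ∑ d, F c d| ≤ K := by
  have hmm := (ratio_bound h hn).2
  rw [abs_mul, abs_of_pos (by positivity : 0 < 1 / mm G), one_div, inv_mul_le_iff₀ hmm]
  calc |∑ c, ∑ d, F c d| ≤ ∑ c, |∑ d, F c d| := Finset.abs_sum_le_sum_abs _ _
    _ ≤ ∑ c, ∑ d, |F c d| := Finset.sum_le_sum (fun c _ => Finset.abs_sum_le_sum_abs _ _)
    _ ≤ ∑ c, ∑ d, ad G c d * K := Finset.sum_le_sum (fun c _ => Finset.sum_le_sum (fun d _ => hF c d))
    _ = mm G * K := by unfold mm; simp only [Finset.sum_mul]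

lemma Psi_bound (h : Ext G eps) (hn : (1000000 : ℚ) ≤ Fintype.card V) (a b x y : V) :
    |Psi G a b x y| ≤ (28 / 100 : ℚ) / (Fintype.card V : ℚ) ^ 2 := by
  set n : ℚ := (Fintype.card V : ℚ) with hnn
  have hn0 : 0 < n := by linarith
  rcases C4_cases G a b x y with hc | hc
  · obtain ⟨h1, hab, hbx, hxy, hya, _, _⟩ := hc
    set K : ℚ := 27 / 100000 * (1 / ((195 / 100000 : ℚ) * n ^ 2)) with hK
    have hW0 : (0 : ℚ) ≤ 1 / ((195 / 100000 : ℚ) * n ^ 2) := by positivity
    have b1 : |(1 / mm G) * ∑ c, ∑ d, C4 G c d x y * rr G c d * WW G a b c d| ≤ K := by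
      apply avg_bound h hn
      intro c d
      by_cases hcd : G.Adj c d
      · have e1 : |C4 G c d x y| ≤ ad G c d := by
          rw [abs_of_nonneg (C4_nonneg G _ _ _ _)]; exact C4_le_ad G _ _ _ _
        have e2 := rr_bound h hn c d
        have e3 : |WW G a b c d| ≤ 1 / ((195 / 100000 : ℚ) * n ^ 2) := by
          rw [abs_of_nonneg (WW_nonneg G _ _ _ _)]; exact WW_bound h hn _ _ _ _ hab hcd
        rw [abs_mul, abs_mul, mul_assoc]
        apply mul_le_mul e1 _ (by positivity) (ad_nonneg G _ _)
        exact mul_le_mul e2 e3 (abs_nonneg _) (by norm_num)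
      · have e1 : C4 G c d x y = 0 := by unfold C4 ad; rw [if_neg hcd]; ring
        rw [e1]
        simp
        exact mul_nonneg (ad_nonneg G _ _) (by positivity)
    have b2 : |(1 / mm G) * ∑ c, ∑ d, C4 G c d a b * rr G x y * WW G c d x y| ≤ K := by
      apply avg_bound h hn
      intro c d
      by_cases hcd : G.Adj c d
      · have e1 : |C4 G c d a b| ≤ ad G c d := by
          rw [abs_of_nonneg (C4_nonneg G _ _ _ _)]; exact C4_le_ad G _ _ _ _
        have e2 := rr_bound h hn x y
        have e3 : |WW G c d x y| ≤ 1 / ((195 / 100000 : ℚ) * n ^ 2) := by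
          rw [abs_of_nonneg (WW_nonneg G _ _ _ _)]; exact WW_bound h hn _ _ _ _ hcd hxy
        rw [abs_mul, abs_mul, mul_assoc]
        apply mul_le_mul e1 _ (by positivity) (ad_nonneg G _ _)
        exact mul_le_mul e2 e3 (abs_nonneg _) (by norm_num)
      · have e1 : C4 G c d a b = 0 := by unfold C4 ad; rw [if_neg hcd]; ring
        rw [e1]
        simp
        exact mul_nonneg (ad_nonneg G _ _) (by positivity)
    unfold Psi
    rw [h1, one_mul]
    refine (abs_add_le _ _).trans ?_
    have : K + K ≤ (28 / 100 : ℚ) / n ^ 2 := by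
      have e : K + K = (54 / 195 : ℚ) / n ^ 2 := by
        rw [hK]; field_simp; norm_num
      rw [e]
      exact div_le_div_of_nonneg_right (by norm_num) (by positivity)
    linarith
  · unfold Psi
    rw [hc, zero_mul, abs_zero]
    positivity

lemma dlt_bound (h : Ext G eps) (hn : (1000000 : ℚ) ≤ Fintype.card V) (u v w : V) :
    |dlt (Psi G) u v w| ≤ (112 / 100 : ℚ) / Fintype.card V := by
  set n : ℚ := (Fintype.card V : ℚ) with hnn
  have hn0 : 0 < n := by linarith
  have hB := Psi_bound h hn
  set B : ℚ := (28 / 100 : ℚ) / n ^ 2 with hBd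
  unfold dlt
  rw [abs_mul]
  have : |∑ z, (- Psi G u w v z - Psi G v w u z + Psi G u z v w + Psi G v z u w
    - Psi G w u z v - Psi G w v z u + Psi G z u w v + Psi G z v w u)| ≤ n * (8 * B) := by
    calc _ ≤ ∑ z, |(- Psi G u w v z - Psi G v w u z + Psi G u z v w + Psi G v z u w
        - Psi G w u z v - Psi G w v z u + Psi G z u w v + Psi G z v w u)| :=
          Finset.abs_sum_le_sum_abs _ _
      _ ≤ ∑ z : V, 8 * B := by
        apply Finset.sum_le_sum
        intro z _
        have h1 := abs_le.1 (hB u w v z)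
        have h2 := abs_le.1 (hB v w u z)
        have h3 := abs_le.1 (hB u z v w)
        have h4 := abs_le.1 (hB v z u w)
        have h5 := abs_le.1 (hB w u z v)
        have h6 := abs_le.1 (hB w v z u)
        have h7 := abs_le.1 (hB z u w v)
        have h8 := abs_le.1 (hB z v w u)
        rw [abs_le]
        constructor <;> linarith [h1.1, h1.2, h2.1, h2.2, h3.1, h3.2, h4.1, h4.2, h5.1, h5.2,
          h6.1, h6.2, h7.1, h7.2, h8.1, h8.2]
      _ = n * (8 * B) := by
        rw [Finset.sum_const, nsmul_eq_mul, Finset.card_univ]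
  have e : n * (8 * B) = (224 / 100 : ℚ) / n := by
    rw [hBd]; field_simp; norm_num
  rw [e] at this
  have e2 : (112 / 100 : ℚ) / n = |1 / 2| * ((224 / 100 : ℚ) / n) := by
    rw [abs_of_pos (by norm_num)]; ring
  rw [e2]
  gcongr

lemma dlt_zero (u v w : V) (hz : na G u v * ad G u w * ad G w v = 0) : dlt (Psi G) u v w = 0 := by
  unfold dlt
  have key : ∀ z, (- Psi G u w v z - Psi G v w u z + Psi G u z v w + Psi G v z u w
    - Psi G w u z v - Psi G w v z u + Psi G z u w v + Psi G z v w u) = 0 := by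
    intro z
    have c1 : C4 G u w v z = 0 := by
      have : C4 G u w v z = (na G u v * ad G u w * ad G w v) * (ad G v z * ad G z u * na G w z) := by
        unfold C4; ring
      rw [this, hz, zero_mul]
    have c2 : C4 G v w u z = 0 := by
      have : C4 G v w u z = (na G u v * ad G u w * ad G w v) * (ad G u z * ad G z v * na G w z) := by
        unfold C4; rw [na_symm G v u, ad_symm G v w, ad_symm G w u]; ring
      rw [this, hz, zero_mul]
    have c3 : C4 G u z v w = 0 := by
      have : C4 G u z v w = (na G u v * ad G u w * ad G w v) * (ad G u z * ad G z v * na G z w) := by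
        unfold C4; rw [ad_symm G v w, ad_symm G w u]; ring
      rw [this, hz, zero_mul]
    have c4 : C4 G v z u w = 0 := by
      have : C4 G v z u w = (na G u v * ad G u w * ad G w v) * (ad G v z * ad G z u * na G z w) := by
        unfold C4; rw [na_symm G v u]; ring
      rw [this, hz, zero_mul]
    have c5 : C4 G w u z v = 0 := by
      have : C4 G w u z v = (na G u v * ad G u w * ad G w v) * (ad G u z * ad G z v * na G w z) := by
        unfold C4; rw [ad_symm G w u, ad_symm G v w]; ring
      rw [this, hz, zero_mul]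
    have c6 : C4 G w v z u = 0 := by
      have : C4 G w v z u = (na G u v * ad G u w * ad G w v) * (ad G v z * ad G z u * na G w z) := by
        unfold C4; rw [na_symm G v u]; ring
      rw [this, hz, zero_mul]
    have c7 : C4 G z u w v = 0 := by
      have : C4 G z u w v = (na G u v * ad G u w * ad G w v) * (ad G z u * ad G v z * na G z w) := by
        unfold C4; ring
      rw [this, hz, zero_mul]
    have c8 : C4 G z v w u = 0 := by
      have : C4 G z v w u = (na G u v * ad G u w * ad G w v) * (ad G z v * ad G u z * na G z w) := by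
        unfold C4; rw [na_symm G v u, ad_symm G v w, ad_symm G w u]; ring
      rw [this, hz, zero_mul]
    unfold Psi
    rw [c1, c2, c3, c4, c5, c6, c7, c8]
    ring
  simp only [key]
  simp

/-- deterministic theorem -/
theorem det (h : Ext G eps) (hn : (1000000 : ℚ) ≤ Fintype.card V) :
    ∃ (x : V → V → V → ℚ) (c : ℚ), (∀ u v w, 0 ≤ x u v w) ∧ (∀ u v w, x u v w = x v u w) ∧
      (∀ u v w, x u v w ≠ 0 → u ≠ v ∧ ¬ G.Adj u v ∧ G.Adj u w ∧ G.Adj w v) ∧
      (∀ u v, u ≠ v → ¬ G.Adj u v → ∑ w, x u v w = 1) ∧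
      (∀ u w, G.Adj u w → ∑ v, x u v w + ∑ v, x w v u = c) := by
  set n : ℚ := (Fintype.card V : ℚ) with hnn
  have hn0 : 0 < n := by linarith
  have hDD : ∀ u v, u ≠ v → 0 < DD G u v ∧ DD G u v ≤ n * (26 / 100) := by
    intro u v huv
    have h1 := abs_le.1 (DD_bound h u v huv)
    constructor
    · nlinarith [h1.1]
    · nlinarith [h1.2]
  have hDD' : ∀ u v, u ≠ v → ¬ G.Adj u v → DD G u v ≠ 0 := fun u v huv _ => (hDD u v huv).1.ne'
  have hmm := (ratio_bound h hn).2
  have hNpos : ∀ a b c d, G.Adj a b → G.Adj c d → 0 < NN G a b c d + NN G b a c d := by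
    intro a b c d hab hcd
    have := NN2_bound h hn a b c d hab hcd
    have h2 : (0 : ℚ) < (195 / 100000 : ℚ) * n ^ 2 := by positivity
    linarith
  have hind : ∀ u v w, na G u v * ad G u w * ad G w v ≠ 0 →
      u ≠ v ∧ ¬ G.Adj u v ∧ G.Adj u w ∧ G.Adj w v := by
    intro u v w h1
    unfold na ad at h1
    by_cases h2 : u ≠ v ∧ ¬ G.Adj u v
    · by_cases h3 : G.Adj u w
      · by_cases h4 : G.Adj w v
        · exact ⟨h2.1, h2.2, h3, h4⟩
        · rw [if_neg h4] at h1; simp at h1
      · rw [if_neg h3] at h1; simp at h1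
    · rw [if_neg h2] at h1; simp at h1
  refine ⟨fun u v w => na G u v * ad G u w * ad G w v / DD G u v + dlt (Psi G) u v w,
    2 * mb G / mm G, ?_, ?_, ?_, ?_, ?_⟩
  · intro u v w
    by_cases hz : na G u v * ad G u w * ad G w v = 0
    · simp only
      rw [hz, dlt_zero u v w hz]; simp
    · obtain ⟨h1, h2, h3, h4⟩ := hind u v w hz
      have e1 : na G u v * ad G u w * ad G w v = 1 := by
        unfold na ad; rw [if_pos ⟨h1, h2⟩, if_pos h3, if_pos h4]; norm_num
      simp only
      rw [e1]
      have h5 := abs_le.1 (dlt_bound h hn u v w)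
      have h6 := hDD u v h1
      have h7 : (112 / 100 : ℚ) / n ≤ 1 / DD G u v := by
        rw [div_le_div_iff₀ hn0 h6.1]
        nlinarith [h6.2]
      linarith [h5.1]
  · intro u v w
    simp only
    rw [dlt_symm (Psi G) u v w]
    have : DD G u v = DD G v u := by
      unfold DD
      apply Finset.sum_congr rfl; intro z _
      rw [ad_symm G u z, ad_symm G z v]; ring
    rw [this, na_symm G u v, ad_symm G u w, ad_symm G w v]
    ring
  · intro u v w hx
    apply hind
    intro hz
    apply hx
    simp only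
    rw [hz, dlt_zero u v w hz]; simp
  · intro u v huv hadj
    simp only
    rw [Finset.sum_add_distrib, dlt_sum, add_zero, ← Finset.sum_div]
    have e : ∀ w, na G u v * ad G u w * ad G w v = ad G u w * ad G w v := by
      intro w
      have : na G u v = 1 := by unfold na; rw [if_pos ⟨huv, hadj⟩]
      rw [this]; ring
    simp only [e]
    exact div_self (hDD' u v huv hadj)
  · intro u w huw
    simp only
    rw [Finset.sum_add_distrib, Finset.sum_add_distrib]
    have h1 := dlt_load (Psi G) u w
    have h2 := net_flow G hmm.ne' hDD' hNpos u w huw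
    have hadj : ad G u w = 1 := by unfold ad; rw [if_pos huw]
    have h3 : rr G u w = 2 * mb G / mm G - L0 G u w := by
      unfold rr; rw [hadj, one_mul]
    have h4 : L0 G u w = ∑ v, na G u v * ad G u w * ad G w v / DD G u v
        + ∑ v, na G w v * ad G w u * ad G u v / DD G w v := by
      unfold L0
      congr 1
      · apply Finset.sum_congr rfl; intro v _
        rw [hadj, ad_symm G w v]; ring
      · apply Finset.sum_congr rfl; intro v _
        rw [ad_symm G w u, hadj, ad_symm G u v]; ring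
    linarith

end bounds

section walks

set_option linter.unusedSectionVars false

lemma clear_den {ι : Type*} [Fintype ι] [DecidableEq ι] (x : ι → ℚ) (hx : ∀ i, 0 ≤ x i) :
    ∃ (k : ℕ) (y : ι → ℕ), 0 < k ∧ ∀ i, (y i : ℚ) = k * x i := by
  refine ⟨∏ i, (x i).den, fun i => (∏ j ∈ univ.erase i, (x j).den) * (x i).num.natAbs, ?_, ?_⟩
  · exact Finset.prod_pos (fun i _ => (x i).den_pos)
  · intro i
    rw [← Finset.mul_prod_erase univ (fun i => (x i).den) (Finset.mem_univ i)]
    have h1 : (((x i).num.natAbs : ℤ) : ℚ) = (x i).num := by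
      rw [Int.natAbs_of_nonneg (Rat.num_nonneg.2 (hx i))]
    have h2 : ((x i).num.natAbs : ℚ) = ((x i).num : ℚ) := by
      rw [← h1]; exact (Int.cast_natCast _).symm
    have h3 : ((x i).den : ℚ) * x i = (x i).num := by
      rw [mul_comm]; exact Rat.mul_den_eq_num (x i)
    rw [Nat.cast_mul, Nat.cast_mul, h2, ← h3]
    ring

lemma fiber_fun {V : Type*} [Fintype V] [DecidableEq V] (k : ℕ) (f : V → ℕ) (hf : ∑ w, f w = k) :
    ∃ φ : Fin k → V, (∀ t, 0 < f (φ t)) ∧ ∀ g : V → ℕ, ∑ t, g (φ t) = ∑ w, f w * g w := by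
  have hc : Fintype.card (Σ w, Fin (f w)) = Fintype.card (Fin k) := by
    rw [Fintype.card_sigma]; simp [hf]
  let e : (Σ w, Fin (f w)) ≃ Fin k := Fintype.equivOfCardEq hc
  refine ⟨fun t => (e.symm t).1, ?_, ?_⟩
  · intro t
    exact (e.symm t).2.pos
  · intro g
    rw [← Equiv.sum_comp e]
    simp only [Equiv.symm_apply_apply]
    rw [Fintype.sum_sigma]
    simp

variable {V : Type*} [Fintype V] [DecidableEq V] {G : SimpleGraph V} [DecidableRel G.Adj]

/-- contribution of the pair `u,v` to the load of `e` -/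
def HH (G : SimpleGraph V) [DecidableRel G.Adj] (k : ℕ) (y : V → V → V → ℕ) (e : Sym2 V) (u v : V) : ℕ :=
  if G.Adj u v then k * (if e = s(u, v) then 1 else 0)
  else ∑ w, y u v w * ((if e = s(u, w) then 1 else 0) + (if e = s(w, v) then 1 else 0))

lemma exists_walks (k : ℕ) (y : V → V → V → ℕ)
    (hy : ∀ u v w, y u v w ≠ 0 → u ≠ v ∧ ¬ G.Adj u v ∧ G.Adj u w ∧ G.Adj w v)
    (hs : ∀ u v, u ≠ v → ¬ G.Adj u v → ∑ w, y u v w = k) (u v : V) (huv : u ≠ v) :
    ∃ Q : Fin k → G.Walk u v, (∀ t, (Q t).IsPath ∧ (Q t).length = G.dist u v) ∧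
      ∀ e : Sym2 V, ∑ t, (Q t).edges.count e = HH G k y e u v := by
  by_cases hadj : G.Adj u v
  · refine ⟨fun _ => SimpleGraph.Walk.cons hadj SimpleGraph.Walk.nil, ?_, ?_⟩
    · intro t
      constructor
      · simp [SimpleGraph.Walk.cons_isPath_iff, huv]
      · simp only [SimpleGraph.Walk.length_cons, SimpleGraph.Walk.length_nil]
        exact (SimpleGraph.dist_eq_one_iff_adj.2 hadj).symm
    · intro e
      unfold HH
      rw [if_pos hadj]
      simp only [SimpleGraph.Walk.edges_cons, SimpleGraph.Walk.edges_nil]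
      rw [Finset.sum_const, Finset.card_univ, Fintype.card_fin, smul_eq_mul]
      congr 1
      rw [List.count_singleton]
      by_cases h : e = s(u, v)
      · simp [h]
      · have : ¬ (s(u, v) == e) = true := by
          simp; exact fun h' => h h'.symm
        simp [h, this]
  · obtain ⟨φ, hφ, hsum⟩ := fiber_fun k (y u v) (hs u v huv hadj)
    have hw : ∀ t, G.Adj u (φ t) ∧ G.Adj (φ t) v := by
      intro t
      have := hy u v (φ t) (hφ t).ne'
      exact ⟨this.2.2.1, this.2.2.2⟩
    refine ⟨fun t => SimpleGraph.Walk.cons (hw t).1 (SimpleGraph.Walk.cons (hw t).2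
      SimpleGraph.Walk.nil), ?_, ?_⟩
    · intro t
      constructor
      · have h1 := (hw t).1.ne
        have h2 := (hw t).2.ne
        simp [SimpleGraph.Walk.cons_isPath_iff, huv, h1, h2]
      · simp only [SimpleGraph.Walk.length_cons, SimpleGraph.Walk.length_nil]
        have hle : G.dist u v ≤ 2 := by
          have := SimpleGraph.dist_le (SimpleGraph.Walk.cons (hw t).1 (SimpleGraph.Walk.cons (hw t).2
            SimpleGraph.Walk.nil))
          simpa using this
        have h0 : G.dist u v ≠ 0 := by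
          have hr : G.Reachable u v := ((hw t).1.reachable).trans (hw t).2.reachable
          intro h
          exact huv (hr.dist_eq_zero_iff.1 h)
        have h1 : G.dist u v ≠ 1 := fun h => hadj (SimpleGraph.dist_eq_one_iff_adj.1 h)
        omega
    · intro e
      unfold HH
      rw [if_neg hadj, ← hsum]
      apply Finset.sum_congr rfl
      intro t _
      simp only [SimpleGraph.Walk.edges_cons, SimpleGraph.Walk.edges_nil]
      rw [List.count_cons, List.count_singleton]
      have e1 : ∀ a b : V, (if (s(a, b) == e) = true then 1 else 0) = (if e = s(a, b) then 1 else 0) := by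
        intro a b
        by_cases h : e = s(a, b)
        · simp [h]
        · have : ¬ (s(a, b) == e) = true := by
            simp; exact fun h' => h h'.symm
          simp [h, this]
      rw [e1, e1, add_comm]

lemma sum_sym2 (a b : V) (hab : a ≠ b) (F : V → V → ℚ) :
    ∑ u, ∑ w, (if s(a, b) = s(u, w) then F u w else 0) = F a b + F b a := by
  have h1 : ∀ u w, (if s(a, b) = s(u, w) then F u w else 0)
      = (if u = a then (if w = b then F u w else 0) else 0)
        + (if u = b then (if w = a then F u w else 0) else 0) := by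
    intro u w
    by_cases h1 : u = a
    · subst h1
      by_cases h2 : w = b
      · subst h2
        simp [hab]
      · have : ¬ s(u, b) = s(u, w) := by
          rw [Sym2.eq_iff]
          rintro (h | h)
          · exact h2 h.2.symm
          · exact hab h.2.symm
        rw [if_neg this]
        simp [h2, hab]
    · by_cases h2 : u = b
      · subst h2
        by_cases h3 : w = a
        · subst h3
          simp [h1, Sym2.eq_swap]
        · have : ¬ s(a, u) = s(u, w) := by
            rw [Sym2.eq_iff]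
            rintro (h | h)
            · exact h1 h.1.symm
            · exact h3 h.1.symm
          rw [if_neg this]
          simp [h1, h3]
      · have : ¬ s(a, b) = s(u, w) := by
          rw [Sym2.eq_iff]
          rintro (h | h)
          · exact h1 h.1.symm
          · exact h2 h.2.symm
        rw [if_neg this]
        simp [h1, h2]
  simp only [h1, Finset.sum_add_distrib]
  simp

lemma total_load (k : ℕ) (x : V → V → V → ℚ) (c : ℚ) (y : V → V → V → ℕ)
    (hxy : ∀ u v w, (y u v w : ℚ) = k * x u v w)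
    (hsymm : ∀ u v w, x u v w = x v u w)
    (hx : ∀ u v w, x u v w ≠ 0 → u ≠ v ∧ ¬ G.Adj u v ∧ G.Adj u w ∧ G.Adj w v)
    (hload : ∀ u w, G.Adj u w → ∑ v, x u v w + ∑ v, x w v u = c)
    (a b : V) (hab : G.Adj a b) :
    ∑ u, ∑ v, (HH G k y s(a, b) u v : ℚ) = 2 * (k * (1 + c)) := by
  have hne := hab.ne
  have h1 : ∀ u v, (HH G k y s(a, b) u v : ℚ)
      = (if s(a, b) = s(u, v) then ad G u v * k else 0)
        + (∑ w, (if s(a, b) = s(u, w) then k * x u v w else 0)
          + ∑ w, (if s(a, b) = s(w, v) then k * x u v w else 0)) := by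
    intro u v
    unfold HH ad
    by_cases h : G.Adj u v
    · have h0 : ∀ w, x u v w = 0 := by
        intro w
        by_contra h2
        exact (hx u v w h2).2.1 h
      simp only [h0, h, if_true]
      push_cast
      simp
    · simp only [h, if_false]
      push_cast
      simp only [hxy]
      rw [← Finset.sum_add_distrib]
      simp only [zero_mul, ite_self, zero_add]
      apply Finset.sum_congr rfl
      intro w _
      split_ifs <;> ring
  simp only [h1, Finset.sum_add_distrib]
  rw [sum_sym2 a b hne]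
  have e1 : ad G a b * (k : ℚ) + ad G b a * k = 2 * k := by
    unfold ad; rw [if_pos hab, if_pos hab.symm]; ring
  have e2 : ∑ u, ∑ v, ∑ w, (if s(a, b) = s(u, w) then k * x u v w else 0) = k * c := by
    have : ∀ u, ∑ v, ∑ w, (if s(a, b) = s(u, w) then k * x u v w else 0)
        = ∑ w, (if s(a, b) = s(u, w) then k * ∑ v, x u v w else 0) := by
      intro u
      rw [Finset.sum_comm]
      apply Finset.sum_congr rfl
      intro w _
      split_ifs
      · rw [Finset.mul_sum]
      · simp
    simp only [this]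
    rw [sum_sym2 a b hne (fun u w => k * ∑ v, x u v w), ← mul_add, hload a b hab]
  have e3 : ∑ u, ∑ v, ∑ w, (if s(a, b) = s(w, v) then k * x u v w else 0) = k * c := by
    rw [← e2, Finset.sum_comm]
    apply Finset.sum_congr rfl; intro u _
    apply Finset.sum_congr rfl; intro v _
    apply Finset.sum_congr rfl; intro w _
    rw [hsymm v u w, Sym2.eq_swap (a := w) (b := u)]
  rw [e1, e2, e3]
  ring

end walks

section final

/-- the property of the frozen statement -/
def PathReg {n : ℕ} (G : SimpleGraph (Fin n)) : Prop :=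
  ∃ m k : ℕ, 1 ≤ m ∧ 1 ≤ k ∧
        ∃ P : ∀ u v : Fin n, Fin k → G.Walk u v,
          (∀ u v : Fin n, u < v → ∀ t : Fin k,
              (P u v t).IsPath ∧ (P u v t).length = G.dist u v) ∧
          (∀ e ∈ G.edgeSet,
              ∑ u : Fin n, ∑ v ∈ Finset.univ.filter (fun v => u < v), ∑ t : Fin k,
                (P u v t).edges.count e = m)

lemma sum_lt {n : ℕ} (H : Fin n → Fin n → ℚ) (hs : ∀ u v, H u v = H v u) (h0 : ∀ u, H u u = 0) :
    2 * ∑ u, ∑ v ∈ univ.filter (fun v => u < v), H u v = ∑ u, ∑ v, H u v := by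
  have h1 : ∀ u, ∑ v, H u v = ∑ v ∈ univ.filter (fun v => u < v), H u v
      + ∑ v ∈ univ.filter (fun v => v < u), H u v := by
    intro u
    rw [Finset.sum_filter, Finset.sum_filter, ← Finset.sum_add_distrib]
    apply Finset.sum_congr rfl
    intro v _
    rcases lt_trichotomy u v with h | h | h
    · simp [h, not_lt.2 h.le]
    · subst h; simp [h0]
    · simp [h, not_lt.2 h.le]
  simp only [h1, Finset.sum_add_distrib]
  have h2 : ∑ u, ∑ v ∈ univ.filter (fun v => v < u), H u v
      = ∑ u, ∑ v ∈ univ.filter (fun v => u < v), H u v := by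
    simp only [Finset.sum_filter]
    rw [Finset.sum_comm]
    apply Finset.sum_congr rfl; intro u _
    apply Finset.sum_congr rfl; intro v _
    rw [hs v u]
  rw [h2]; ring

theorem epr_of_ext {n : ℕ} (hn : 1000000 ≤ n) (G : SimpleGraph (Fin n)) [DecidableRel G.Adj]
    (h : Ext G eps) : PathReg G := by
  have hn' : (1000000 : ℚ) ≤ (Fintype.card (Fin n) : ℚ) := by
    rw [Fintype.card_fin]; exact_mod_cast hn
  obtain ⟨x, c, hx0, hsymm, hx, hone, hload⟩ := det h hn'
  obtain ⟨k, y', hk, hy'⟩ := clear_den (fun p : Fin n × Fin n × Fin n => x p.1 p.2.1 p.2.2)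
    (fun p => hx0 _ _ _)
  set y : Fin n → Fin n → Fin n → ℕ := fun u v w => y' (u, v, w) with hyd
  have hxy : ∀ u v w, (y u v w : ℚ) = k * x u v w := fun u v w => hy' (u, v, w)
  have hk' : (0 : ℚ) < k := by exact_mod_cast hk
  have hy : ∀ u v w, y u v w ≠ 0 → u ≠ v ∧ ¬ G.Adj u v ∧ G.Adj u w ∧ G.Adj w v := by
    intro u v w hne
    apply hx
    intro h0
    have := hxy u v w
    rw [h0, mul_zero] at this
    exact hne (by exact_mod_cast this)
  have hs : ∀ u v, u ≠ v → ¬ G.Adj u v → ∑ w, y u v w = k := by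
    intro u v huv hadj
    have : ((∑ w, y u v w : ℕ) : ℚ) = k := by
      push_cast
      simp only [hxy]
      rw [← Finset.mul_sum, hone u v huv hadj, mul_one]
    exact_mod_cast this
  -- some edge
  obtain ⟨a, b, hab⟩ : ∃ a b, G.Adj a b := by
    by_contra hcon
    push Not at hcon
    have h1 := (ratio_bound h hn').2
    have : mm G = 0 := by
      unfold mm ad
      simp [hcon]
    linarith
  have hc0 : 0 ≤ c := by
    rw [← hload a b hab]
    exact add_nonneg (Finset.sum_nonneg (fun v _ => hx0 _ _ _)) (Finset.sum_nonneg (fun v _ => hx0 _ _ _))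
  have hQ : ∀ u v : Fin n, ∃ Q : Fin k → G.Walk u v, u ≠ v → ((∀ t, (Q t).IsPath ∧
      (Q t).length = G.dist u v) ∧ ∀ e : Sym2 (Fin n), ∑ t, (Q t).edges.count e = HH G k y e u v) := by
    intro u v
    by_cases huv : u = v
    · subst huv
      exact ⟨fun _ => SimpleGraph.Walk.nil, fun h => absurd rfl h⟩
    · obtain ⟨Q, hQ⟩ := exists_walks k y hy hs u v huv
      exact ⟨Q, fun _ => hQ⟩
  choose P hP using hQ
  have hHs : ∀ e u v, (HH G k y e u v : ℚ) = HH G k y e v u := by
    intro e u v
    unfold HH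
    have hadj : G.Adj u v ↔ G.Adj v u := G.adj_comm u v
    have hyc : ∀ w, y u v w = y v u w := by
      intro w
      have : (y u v w : ℚ) = y v u w := by rw [hxy, hxy, hsymm]
      exact_mod_cast this
    by_cases h1 : G.Adj u v
    · rw [if_pos h1, if_pos (hadj.1 h1), Sym2.eq_swap]
    · rw [if_neg h1, if_neg (fun h => h1 (hadj.2 h))]
      congr 1
      apply Finset.sum_congr rfl
      intro w _
      rw [hyc, add_comm, Sym2.eq_swap (a := w) (b := v), Sym2.eq_swap (a := u) (b := w)]
  have hH0 : ∀ e u, (HH G k y e u u : ℚ) = 0 := by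
    intro e u
    have h1 : ∀ w, y u u w = 0 := by
      intro w
      by_contra h2
      exact (hy u u w h2).1 rfl
    unfold HH
    simp [h1]
  have key : ∀ a b, G.Adj a b → ((∑ u, ∑ v ∈ univ.filter (fun v => u < v),
      ∑ t, (P u v t).edges.count s(a, b) : ℕ) : ℚ) = k * (1 + c) := by
    intro a b hab
    have h1 : ∑ u, ∑ v ∈ univ.filter (fun v => u < v), ∑ t, (P u v t).edges.count s(a, b)
        = ∑ u, ∑ v ∈ univ.filter (fun v => u < v), HH G k y s(a, b) u v := by
      apply Finset.sum_congr rfl; intro u _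
      apply Finset.sum_congr rfl; intro v hv
      rw [Finset.mem_filter] at hv
      exact (hP u v hv.2.ne).2 _
    rw [h1]
    push_cast
    have h2 := sum_lt (fun u v => (HH G k y s(a, b) u v : ℚ)) (hHs _) (hH0 _)
    rw [total_load k x c y hxy hsymm hx hload a b hab] at h2
    linarith
  refine ⟨∑ u, ∑ v ∈ univ.filter (fun v => u < v), ∑ t, (P u v t).edges.count s(a, b), k, ?_, hk,
    P, ?_, ?_⟩
  · have h1 := key a b hab
    have h2 : (0 : ℚ) < k * (1 + c) := by positivity
    rw [← h1] at h2
    exact_mod_cast h2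
  · intro u v huv t
    exact (hP u v huv.ne).1 t
  · intro e he
    induction e using Sym2.ind with
    | h a' b' =>
      have h1 := key a' b' he
      have h2 := key a b hab
      rw [← h2] at h1
      exact_mod_cast h1

end final



section prob

lemma mgf {J κ : Type*} [Fintype J] [DecidableEq J] [Fintype κ] [DecidableEq κ] (π : κ) (lam : ℝ) :
    ∑ g : J → κ, Real.exp (lam * ((univ.filter (fun j => g j = π)).card : ℝ))
      = ((Fintype.card κ : ℝ) - 1 + Real.exp lam) ^ Fintype.card J := by
  have h1 : ∀ g : J → κ, Real.exp (lam * ((univ.filter (fun j => g j = π)).card : ℝ))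
      = ∏ j, (if g j = π then Real.exp lam else 1) := by
    intro g
    rw [Finset.prod_ite, Finset.prod_const, Finset.prod_const_one, mul_one, mul_comm, Real.exp_nat_mul]
  simp only [h1]
  rw [← Fintype.prod_sum (fun (_ : J) (v : κ) => if v = π then Real.exp lam else 1)]
  rw [Finset.prod_const, Finset.card_univ]
  congr 1
  rw [← Finset.add_sum_erase univ _ (Finset.mem_univ π), if_pos rfl]
  have : ∑ x ∈ univ.erase π, (if x = π then Real.exp lam else 1) = ∑ x ∈ univ.erase π, (1 : ℝ) := by
    apply Finset.sum_congr rfl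
    intro x hx
    rw [if_neg (Finset.ne_of_mem_erase hx)]
  rw [this, Finset.sum_const, nsmul_eq_mul, mul_one, Finset.card_erase_of_mem (Finset.mem_univ π),
    Finset.card_univ, Nat.cast_sub (Fintype.card_pos_iff.2 ⟨π⟩)]
  push_cast
  ring

lemma mgf_le {J κ : Type*} [Fintype J] [DecidableEq J] [Fintype κ] [DecidableEq κ] (π : κ) (lam : ℝ)
    (hl : |lam| ≤ 1) :
    ∑ g : J → κ, Real.exp (lam * (((univ.filter (fun j => g j = π)).card : ℝ)
        - Fintype.card J / Fintype.card κ))
      ≤ (Fintype.card κ : ℝ) ^ Fintype.card J * Real.exp (Fintype.card J * lam ^ 2) := by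
  have hq : (1 : ℝ) ≤ Fintype.card κ := by
    have : 1 ≤ Fintype.card κ := Fintype.card_pos_iff.2 ⟨π⟩
    exact_mod_cast this
  set q : ℝ := (Fintype.card κ : ℝ) with hqd
  set N : ℕ := Fintype.card J with hN
  have h1 : ∀ g : J → κ, Real.exp (lam * (((univ.filter (fun j => g j = π)).card : ℝ) - N / q))
      = Real.exp (lam * ((univ.filter (fun j => g j = π)).card : ℝ)) * Real.exp (- (lam / q)) ^ N := by
    intro g
    rw [← Real.exp_nat_mul, ← Real.exp_add]
    congr 1
    ring
  simp only [h1]
  rw [← Finset.sum_mul, mgf, ← hqd, ← hN, ← mul_pow]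
  have h2 : (q - 1 + Real.exp lam) * Real.exp (- (lam / q)) ≤ q * Real.exp (lam ^ 2) := by
    have h3 : q - 1 + Real.exp lam ≤ q * Real.exp ((Real.exp lam - 1) / q) := by
      have := Real.add_one_le_exp ((Real.exp lam - 1) / q)
      calc q - 1 + Real.exp lam = q * ((Real.exp lam - 1) / q + 1) := by field_simp; ring
        _ ≤ _ := by gcongr
    calc (q - 1 + Real.exp lam) * Real.exp (- (lam / q))
        ≤ q * Real.exp ((Real.exp lam - 1) / q) * Real.exp (- (lam / q)) := by gcongr
      _ = q * Real.exp ((Real.exp lam - 1 - lam) / q) := by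
        rw [mul_assoc, ← Real.exp_add]; congr 2; ring
      _ ≤ q * Real.exp (lam ^ 2) := by
        have h4 := Real.abs_exp_sub_one_sub_id_le hl
        have h5 : Real.exp lam - 1 - lam ≤ lam ^ 2 := (le_abs_self _).trans h4
        have h6 : (Real.exp lam - 1 - lam) / q ≤ lam ^ 2 := by
          rw [div_le_iff₀ (by linarith)]
          nlinarith [sq_nonneg lam]
        gcongr
  have h0 : 0 ≤ (q - 1 + Real.exp lam) * Real.exp (- (lam / q)) := by
    have := Real.exp_pos lam
    have : 0 ≤ q - 1 + Real.exp lam := by linarith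
    positivity
  calc _ ≤ (q * Real.exp (lam ^ 2)) ^ N := pow_le_pow_left₀ h0 h2 N
    _ = _ := by
      rw [mul_pow, ← Real.exp_nat_mul]

lemma tail {J κ : Type*} [Fintype J] [DecidableEq J] [Fintype κ] [DecidableEq κ] (π : κ) (δ : ℝ)
    (hδ0 : 0 ≤ δ) (hδ : δ ≤ 1) :
    ((univ.filter (fun g : J → κ => δ * Fintype.card J ≤ |((univ.filter (fun j => g j = π)).card : ℝ)
        - Fintype.card J / Fintype.card κ|)).card : ℝ)
      ≤ (Fintype.card κ : ℝ) ^ Fintype.card J * (2 * Real.exp (- (Fintype.card J * δ ^ 2 / 4))) := by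
  set N : ℝ := (Fintype.card J : ℝ) with hN
  have key : ∀ g : J → κ, (if δ * N ≤ |((univ.filter (fun j => g j = π)).card : ℝ)
        - N / Fintype.card κ| then (1 : ℝ) else 0)
      ≤ Real.exp (- (δ / 2 * (δ * N))) * (Real.exp (δ / 2 * (((univ.filter (fun j => g j = π)).card : ℝ)
        - N / Fintype.card κ)) + Real.exp ((- (δ / 2)) * (((univ.filter (fun j => g j = π)).card : ℝ)
        - N / Fintype.card κ))) := by
    intro g
    set X : ℝ := ((univ.filter (fun j => g j = π)).card : ℝ) - N / Fintype.card κ with hX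
    split_ifs with h
    · rw [mul_add, ← Real.exp_add, ← Real.exp_add]
      rcases le_abs.1 h with h1 | h1
      · have : 0 ≤ - (δ / 2 * (δ * N)) + δ / 2 * X := by nlinarith
        have h2 := Real.one_le_exp this
        have h3 := Real.exp_pos (- (δ / 2 * (δ * N)) + - (δ / 2) * X)
        linarith
      · have : 0 ≤ - (δ / 2 * (δ * N)) + - (δ / 2) * X := by nlinarith
        have h2 := Real.one_le_exp this
        have h3 := Real.exp_pos (- (δ / 2 * (δ * N)) + δ / 2 * X)
        linarith
    · positivity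
  rw [Finset.card_filter]
  push_cast
  refine (Finset.sum_le_sum (fun g _ => key g)).trans ?_
  rw [← Finset.mul_sum, Finset.sum_add_distrib]
  have h1 := mgf_le (J := J) (κ := κ) π (δ / 2) (by rw [abs_le]; constructor <;> linarith)
  have h2 := mgf_le (J := J) (κ := κ) π (-(δ / 2)) (by rw [abs_le]; constructor <;> linarith)
  rw [← hN] at h1 h2
  calc _ ≤ Real.exp (- (δ / 2 * (δ * N))) * ((Fintype.card κ : ℝ) ^ Fintype.card J * Real.exp (N * (δ / 2) ^ 2)
        + (Fintype.card κ : ℝ) ^ Fintype.card J * Real.exp (N * (-(δ / 2)) ^ 2)) := by gcongr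
    _ = (Fintype.card κ : ℝ) ^ Fintype.card J * (2 * (Real.exp (- (δ / 2 * (δ * N))) * Real.exp (N * (δ / 2) ^ 2))) := by
      rw [neg_sq]; ring
    _ = _ := by
      rw [← Real.exp_add]
      congr 3
      ring

/-- splitting the coordinates -/
lemma card_pull {A B : Type*} [Fintype A] [DecidableEq A] [Fintype B] [DecidableEq B] (φ : A → B)
    (hφ : Function.Injective φ) (P : (A → Bool) → Prop) [DecidablePred P]
    [DecidablePred (fun f : B → Bool => P (f ∘ φ))] :
    (univ.filter (fun f : B → Bool => P (f ∘ φ))).card * 2 ^ Fintype.card A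
      = (univ.filter (fun g : A → Bool => P g)).card * 2 ^ Fintype.card B := by
  classical
  -- fibres all have the same size
  have hfib : ∀ g : A → Bool, (univ.filter (fun f : B → Bool => f ∘ φ = g)).card
      = (univ.filter (fun f : B → Bool => f ∘ φ = fun _ => false)).card := by
    intro g
    let ext : B → Bool := fun b => if h : ∃ a, φ a = b then g h.choose else false
    have hext : ∀ a, ext (φ a) = g a := by
      intro a
      have h : ∃ a', φ a' = φ a := ⟨a, rfl⟩
      simp only [ext]
      rw [dif_pos h]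
      congr 1
      exact hφ h.choose_spec
    apply Finset.card_bij' (fun f _ => fun b => xor (f b) (ext b)) (fun f _ => fun b => xor (f b) (ext b))
    · intro f hf
      rw [Finset.mem_filter] at hf ⊢
      refine ⟨Finset.mem_univ _, ?_⟩
      funext a
      have := congrFun hf.2 a
      simp only [Function.comp] at this ⊢
      rw [hext, this]; simp
    · intro f hf
      rw [Finset.mem_filter] at hf ⊢
      refine ⟨Finset.mem_univ _, ?_⟩
      funext a
      have := congrFun hf.2 a
      simp only [Function.comp] at this ⊢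
      rw [hext, this]; simp
    · intro f _; funext b; simp
    · intro f _; funext b; simp
  set K := (univ.filter (fun f : B → Bool => f ∘ φ = fun _ => false)).card with hK
  have htot : ∀ (Q : (A → Bool) → Prop) [DecidablePred Q],
      (univ.filter (fun f : B → Bool => Q (f ∘ φ))).card = (univ.filter (fun g => Q g)).card * K := by
    intro Q _
    have h1 := Finset.card_eq_sum_card_fiberwise (f := fun f : B → Bool => f ∘ φ)
      (s := univ.filter (fun f : B → Bool => Q (f ∘ φ))) (t := univ.filter (fun g => Q g))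
      (by intro f hf; simpa using hf)
    rw [h1]
    have h2 : ∀ g ∈ univ.filter (fun g => Q g),
        ((univ.filter (fun f : B → Bool => Q (f ∘ φ))).filter (fun f => f ∘ φ = g)).card = K := by
      intro g hg
      rw [← hfib g]
      congr 1
      ext f
      simp only [Finset.mem_filter, Finset.mem_univ, true_and]
      constructor
      · exact fun h => h.2
      · intro h
        refine ⟨?_, h⟩
        rw [h]; simpa using hg
    rw [Finset.sum_congr rfl h2]
    simp
  have hall := htot (fun _ => True)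
  simp at hall
  have hP := htot P
  have e : (univ.filter (fun f : B → Bool => P (f ∘ φ))).card
      = (univ.filter (fun g : A → Bool => P g)).card * K := by
    convert hP
  rw [e, hall]
  ring

end prob

section prob2

open Filter

/-- edges of the complete graph -/
abbrev Edg (n : ℕ) := {e : Sym2 (Fin n) // ¬ e.IsDiag}

open scoped Classical in
noncomputable def gE (n : ℕ) : SimpleGraph (Fin n) ≃ (Edg n → Bool) where
  toFun G e := @decide (e.1 ∈ G.edgeSet) (Classical.propDecidable _)
  invFun f := SimpleGraph.fromEdgeSet {e | ∃ h : ¬ e.IsDiag, f ⟨e, h⟩ = true}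
  left_inv G := by
    ext a b
    rw [SimpleGraph.fromEdgeSet_adj]
    constructor
    · rintro ⟨⟨h, h2⟩, h3⟩
      simpa using h2
    · intro h
      refine ⟨⟨?_, ?_⟩, h.ne⟩
      · simpa using h.ne
      · simpa using h
  right_inv f := by
    funext e
    obtain ⟨e, he⟩ := e
    simp only
    have hmem : (e ∈ (SimpleGraph.fromEdgeSet {e | ∃ (h : ¬e.IsDiag), f ⟨e, h⟩ = true}).edgeSet)
        ↔ f ⟨e, he⟩ = true := by
      rw [SimpleGraph.edgeSet_fromEdgeSet]
      constructor
      · rintro ⟨⟨h1, h2⟩, _⟩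
        exact h2
      · intro h
        exact ⟨⟨he, h⟩, he⟩
    by_cases h : f ⟨e, he⟩ = true
    · rw [h]
      exact @decide_eq_true _ (Classical.propDecidable _) (hmem.2 h)
    · have h' : f ⟨e, he⟩ = false := by simpa using h
      rw [h']
      exact @decide_eq_false _ (Classical.propDecidable _) (fun h'' => h (hmem.1 h''))

lemma card_Edg (n : ℕ) : Fintype.card (Edg n) = n.choose 2 := by
  have := Sym2.card_subtype_not_diag (α := Fin n)
  rw [Fintype.card_fin] at this
  convert this

lemma card_graph (n : ℕ) : Nat.card (SimpleGraph (Fin n)) = 2 ^ n.choose 2 := by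
  rw [Nat.card_congr (gE n), Nat.card_eq_fintype_card, Fintype.card_fun, Fintype.card_bool, card_Edg]

open scoped Classical in
/-- the count in the extension property -/
noncomputable def cnt {n : ℕ} (G : SimpleGraph (Fin n)) (S T : Finset (Fin n)) : ℕ :=
  (univ.filter (fun y => y ∉ S ∧ ∀ s ∈ S, (G.Adj s y ↔ s ∈ T))).card

def phi {n : ℕ} (S : Finset (Fin n)) (p : {y // y ∉ S} × {s // s ∈ S}) : Edg n :=
  ⟨s(p.2.1, p.1.1), by
    intro h
    rw [Sym2.mk_isDiag_iff] at h
    exact p.1.2 (h ▸ p.2.2)⟩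

lemma phi_inj {n : ℕ} (S : Finset (Fin n)) : Function.Injective (phi S) := by
  rintro ⟨⟨y, hy⟩, ⟨s, hs⟩⟩ ⟨⟨y', hy'⟩, ⟨s', hs'⟩⟩ h
  have h1 : s(s, y) = s(s', y') := congrArg Subtype.val h
  rw [Sym2.eq_iff] at h1
  rcases h1 with ⟨h1, h2⟩ | ⟨h1, h2⟩
  · subst h1; subst h2; rfl
  · subst h1; exact absurd hs hy'

open scoped Classical in
lemma cnt_eq {n : ℕ} (G : SimpleGraph (Fin n)) (S T : Finset (Fin n)) :
    cnt G S T = (univ.filter (fun j : {y // y ∉ S} =>
      (fun s : {s // s ∈ S} => (gE n G ∘ phi S) (j, s)) = fun s => decide (s.1 ∈ T))).card := by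
  unfold cnt
  symm
  apply Finset.card_bij (fun j _ => j.1)
  · intro j hj
    rw [Finset.mem_filter] at hj ⊢
    refine ⟨Finset.mem_univ _, j.2, ?_⟩
    intro s hs
    have := congrFun hj.2 ⟨s, hs⟩
    simpa [gE, phi] using this
  · intro a _ b _ h
    exact Subtype.ext h
  · intro y hy
    rw [Finset.mem_filter] at hy
    refine ⟨⟨y, hy.2.1⟩, ?_, rfl⟩
    rw [Finset.mem_filter]
    refine ⟨Finset.mem_univ _, ?_⟩
    funext s
    have := hy.2.2 s.1 s.2
    simpa [gE, phi] using this

open scoped Classical in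
lemma bad_ST {n : ℕ} (hn : 1000000 ≤ n) (S T : Finset (Fin n)) (hS : S.card ≤ 5) :
    (Nat.card {G : SimpleGraph (Fin n) // (1 / 100000 : ℝ) * n < |(cnt G S T : ℝ) - n / 2 ^ S.card|} : ℝ)
      ≤ 2 ^ n.choose 2 * (2 * Real.exp (- ((n - 5 : ℝ) * (1 / 200000) ^ 2 / 4))) := by
  have hn' : (1000000 : ℝ) ≤ n := by exact_mod_cast hn
  set δ : ℝ := 1 / 200000 with hδ
  set J := {y : Fin n // y ∉ S} with hJ
  set Sx := {s : Fin n // s ∈ S} with hSx
  have hJc : Fintype.card J = n - S.card := by
    rw [Fintype.card_subtype_compl]; simp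
  have hSc : Fintype.card Sx = S.card := by simp [hSx]
  have hle : S.card ≤ n := by simpa using Finset.card_le_univ S
  have hJr : (Fintype.card J : ℝ) = n - S.card := by
    rw [hJc, Nat.cast_sub hle]
  set π : Sx → Bool := fun s => decide (s.1 ∈ T) with hπ
  let P : (J × Sx → Bool) → Prop := fun g =>
    δ * Fintype.card J ≤ |((univ.filter (fun j : J => (fun s => g (j, s)) = π)).card : ℝ)
        - Fintype.card J / Fintype.card (Sx → Bool)|
  have hsn : (0 : ℝ) ≤ (S.card : ℝ) := Nat.cast_nonneg _
  have hs5 : (S.card : ℝ) ≤ 5 := by exact_mod_cast hS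
  have hcardS : (Fintype.card (Sx → Bool) : ℝ) = 2 ^ S.card := by
    rw [Fintype.card_fun, Fintype.card_bool, hSc]; push_cast; rfl
  -- comparison
  have h1 : Nat.card {G : SimpleGraph (Fin n) // (1 / 100000 : ℝ) * n < |(cnt G S T : ℝ) - n / 2 ^ S.card|}
      ≤ (univ.filter (fun f : Edg n → Bool => P (f ∘ phi S))).card := by
    rw [← Fintype.card_subtype, ← Nat.card_eq_fintype_card]
    have himp : ∀ G : SimpleGraph (Fin n), (1 / 100000 : ℝ) * n < |(cnt G S T : ℝ) - n / 2 ^ S.card| →
        P (gE n G ∘ phi S) := by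
      intro G hG
      change δ * Fintype.card J ≤ |((univ.filter (fun j : J => (fun s => (gE n G ∘ phi S) (j, s)) = π)).card : ℝ)
        - Fintype.card J / Fintype.card (Sx → Bool)|
      rw [cnt_eq] at hG
      set X : ℝ := ((univ.filter (fun j : J => (fun s => (gE n G ∘ phi S) (j, s)) = π)).card : ℝ) with hX
      have hG' : (1 / 100000 : ℝ) * n < |X - n / 2 ^ S.card| := by
        convert hG
      rw [hcardS, hJr]
      have hp : (1 : ℝ) ≤ 2 ^ S.card := one_le_pow₀ (by norm_num)
      have h3 : |(S.card : ℝ) / 2 ^ S.card| ≤ 5 := by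
        rw [abs_of_nonneg (by positivity), div_le_iff₀ (by positivity)]
        nlinarith
      have h4 : X - n / 2 ^ S.card = (X - (n - S.card) / 2 ^ S.card) - S.card / 2 ^ S.card := by ring
      rw [h4] at hG'
      have h5 := abs_sub (X - (n - S.card) / 2 ^ S.card) ((S.card : ℝ) / 2 ^ S.card)
      rw [hδ]
      nlinarith
    apply Nat.card_le_card_of_injective (fun G : {G : SimpleGraph (Fin n) //
      (1 / 100000 : ℝ) * n < |(cnt G S T : ℝ) - n / 2 ^ S.card|} =>
      (⟨gE n G.1, himp G.1 G.2⟩ : {f : Edg n → Bool // P (f ∘ phi S)}))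
    intro G G' h
    apply Subtype.ext
    have := congrArg Subtype.val h
    exact (gE n).injective this
  have h2 : ((univ.filter (fun g : J × Sx → Bool => P g)).card : ℝ)
      ≤ (2 ^ S.card) ^ Fintype.card J * (2 * Real.exp (- (Fintype.card J * δ ^ 2 / 4))) := by
    have ht := tail (J := J) (κ := Sx → Bool) π δ (by norm_num [hδ]) (by norm_num [hδ])
    rw [hcardS] at ht
    refine le_trans (le_of_eq ?_) ht
    congr 1
    apply Finset.card_bij (fun g _ => fun j s => g (j, s))
    · intro g hg
      rw [Finset.mem_filter] at hg ⊢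
      refine ⟨Finset.mem_univ _, ?_⟩
      have := hg.2
      change δ * Fintype.card J ≤ |((univ.filter (fun j : J => (fun s => g (j, s)) = π)).card : ℝ)
        - Fintype.card J / Fintype.card (Sx → Bool)| at this
      rw [hcardS] at this
      exact this
    · intro g _ g' _ h
      funext ⟨j, s⟩
      exact congrFun (congrFun h j) s
    · intro g hg
      rw [Finset.mem_filter] at hg
      refine ⟨fun p => g p.1 p.2, ?_, rfl⟩
      rw [Finset.mem_filter]
      refine ⟨Finset.mem_univ _, ?_⟩
      change δ * Fintype.card J ≤ |((univ.filter (fun j : J => (fun s => g j s) = π)).card : ℝ)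
        - Fintype.card J / Fintype.card (Sx → Bool)|
      rw [hcardS]
      exact hg.2
  have h3 := card_pull (phi S) (phi_inj S) P
  have h4 : (((univ.filter (fun f : Edg n → Bool => P (f ∘ phi S))).card : ℝ)) * (2 ^ S.card) ^ Fintype.card J
      = ((univ.filter (fun g : J × Sx → Bool => P g)).card : ℝ) * 2 ^ n.choose 2 := by
    have e1 : Fintype.card (J × Sx) = S.card * Fintype.card J := by
      rw [Fintype.card_prod, hSc, mul_comm]
    rw [e1, card_Edg, pow_mul] at h3
    exact_mod_cast h3
  have hpos : (0 : ℝ) < (2 ^ S.card) ^ Fintype.card J := by positivity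
  have h5 : (((univ.filter (fun f : Edg n → Bool => P (f ∘ phi S))).card : ℝ))
      ≤ 2 ^ n.choose 2 * (2 * Real.exp (- (Fintype.card J * δ ^ 2 / 4))) := by
    rw [← mul_le_mul_iff_left₀ hpos, h4]
    calc _ ≤ ((2 ^ S.card) ^ Fintype.card J * (2 * Real.exp (- (Fintype.card J * δ ^ 2 / 4)))) * 2 ^ n.choose 2 := by
          gcongr
      _ = _ := by ring
  calc (Nat.card {G : SimpleGraph (Fin n) // (1 / 100000 : ℝ) * n < |(cnt G S T : ℝ) - n / 2 ^ S.card|} : ℝ)
      ≤ ((univ.filter (fun f : Edg n → Bool => P (f ∘ phi S))).card : ℝ) := by exact_mod_cast h1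
    _ ≤ _ := h5
    _ ≤ _ := by
      gcongr
      rw [hJr]
      linarith

open scoped Classical in
lemma card_small (n : ℕ) (hn : 1 ≤ n) :
    (univ.filter (fun S : Finset (Fin n) => S.card ≤ 5)).card ≤ 6 * n ^ 5 := by
  have h1 : univ.filter (fun S : Finset (Fin n) => S.card ≤ 5)
      ⊆ (range 6).biUnion (fun i => powersetCard i (univ : Finset (Fin n))) := by
    intro S hS
    rw [Finset.mem_filter] at hS
    rw [Finset.mem_biUnion]
    exact ⟨S.card, by rw [Finset.mem_range]; omega, by rw [Finset.mem_powersetCard]; simp⟩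
  refine (Finset.card_le_card h1).trans (Finset.card_biUnion_le.trans ?_)
  calc ∑ i ∈ range 6, (powersetCard i (univ : Finset (Fin n))).card ≤ ∑ i ∈ range 6, n ^ 5 := by
        apply Finset.sum_le_sum
        intro i hi
        rw [Finset.card_powersetCard, Finset.card_univ, Fintype.card_fin]
        have hi' : i ≤ 5 := by have := Finset.mem_range.1 hi; omega
        exact (Nat.choose_le_pow n i).trans (Nat.pow_le_pow_right hn hi')
    _ = 6 * n ^ 5 := by simp

open scoped Classical in
lemma bad_all {n : ℕ} (hn : 1000000 ≤ n) :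
    (Nat.card {G : SimpleGraph (Fin n) // ¬ ∀ S : Finset (Fin n), S.card ≤ 5 → ∀ T ⊆ S,
      |(cnt G S T : ℝ) - n / 2 ^ S.card| ≤ (1 / 100000 : ℝ) * n} : ℝ)
      ≤ 2 ^ n.choose 2 * (384 * n ^ 5 * Real.exp (- ((n - 5 : ℝ) * (1 / 200000) ^ 2 / 4))) := by
  set B : Finset (Fin n) → Finset (Fin n) → Finset (SimpleGraph (Fin n)) := fun S T =>
    univ.filter (fun G => (1 / 100000 : ℝ) * n < |(cnt G S T : ℝ) - n / 2 ^ S.card|) with hB
  have hBc : ∀ S T, S.card ≤ 5 → ((B S T).card : ℝ)
      ≤ 2 ^ n.choose 2 * (2 * Real.exp (- ((n - 5 : ℝ) * (1 / 200000) ^ 2 / 4))) := by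
    intro S T hS
    have := bad_ST hn S T hS
    rw [Nat.card_eq_fintype_card, Fintype.card_subtype] at this
    exact this
  have h1 : (univ.filter (fun G : SimpleGraph (Fin n) => ¬ ∀ S : Finset (Fin n), S.card ≤ 5 → ∀ T ⊆ S,
      |(cnt G S T : ℝ) - n / 2 ^ S.card| ≤ (1 / 100000 : ℝ) * n))
      ⊆ (univ.filter (fun S : Finset (Fin n) => S.card ≤ 5)).biUnion
          (fun S => S.powerset.biUnion (fun T => B S T)) := by
    intro G hG
    rw [Finset.mem_filter] at hG
    have h2 := hG.2
    push Not at h2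
    obtain ⟨S, hS, T, hT, h3⟩ := h2
    rw [Finset.mem_biUnion]
    refine ⟨S, by simp [hS], ?_⟩
    rw [Finset.mem_biUnion]
    refine ⟨T, Finset.mem_powerset.2 hT, ?_⟩
    rw [hB, Finset.mem_filter]
    exact ⟨Finset.mem_univ _, h3⟩
  rw [Nat.card_eq_fintype_card, Fintype.card_subtype]
  set M : ℝ := 2 ^ n.choose 2 * (2 * Real.exp (- ((n - 5 : ℝ) * (1 / 200000) ^ 2 / 4))) with hM
  have hM0 : 0 ≤ M := by positivity
  calc _ ≤ (((univ.filter (fun S : Finset (Fin n) => S.card ≤ 5)).biUnion
          (fun S => S.powerset.biUnion (fun T => B S T))).card : ℝ) := by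
        exact_mod_cast Finset.card_le_card h1
    _ ≤ ∑ S ∈ univ.filter (fun S : Finset (Fin n) => S.card ≤ 5), ∑ T ∈ S.powerset, ((B S T).card : ℝ) := by
        have h2 : ((univ.filter (fun S : Finset (Fin n) => S.card ≤ 5)).biUnion
          (fun S => S.powerset.biUnion (fun T => B S T))).card
          ≤ ∑ S ∈ univ.filter (fun S : Finset (Fin n) => S.card ≤ 5), ∑ T ∈ S.powerset, (B S T).card :=
          Finset.card_biUnion_le.trans (Finset.sum_le_sum (fun S _ => Finset.card_biUnion_le))
        exact_mod_cast h2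
    _ ≤ ∑ S ∈ univ.filter (fun S : Finset (Fin n) => S.card ≤ 5), 32 * M := by
        apply Finset.sum_le_sum
        intro S hS
        have hS5 : S.card ≤ 5 := by simpa using hS
        calc ∑ T ∈ S.powerset, ((B S T).card : ℝ) ≤ ∑ T ∈ S.powerset, M :=
              Finset.sum_le_sum (fun T _ => hBc S T hS5)
          _ = (2 ^ S.card : ℝ) * M := by
              rw [Finset.sum_const, Finset.card_powerset, nsmul_eq_mul]; push_cast; rfl
          _ ≤ 32 * M := by
              gcongr
              calc (2 : ℝ) ^ S.card ≤ 2 ^ 5 := pow_le_pow_right₀ (by norm_num) hS5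
                _ = 32 := by norm_num
    _ = ((univ.filter (fun S : Finset (Fin n) => S.card ≤ 5)).card : ℝ) * (32 * M) := by
        rw [Finset.sum_const, nsmul_eq_mul]
    _ ≤ (6 * n ^ 5) * (32 * M) := by
        gcongr
        exact_mod_cast card_small n (by omega)
    _ = _ := by rw [hM]; ring

lemma tend : Tendsto (fun n : ℕ => (384 * (n : ℝ) ^ 5 * Real.exp (- ((n - 5 : ℝ) * (1 / 200000) ^ 2 / 4))))
    atTop (nhds 0) := by
  set c : ℝ := (1 / 200000) ^ 2 / 4 with hc
  have hc0 : 0 < c := by positivity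
  have h1 : ∀ n : ℕ, 384 * (n : ℝ) ^ 5 * Real.exp (- ((n - 5 : ℝ) * (1 / 200000) ^ 2 / 4))
      = (384 * Real.exp (5 * c)) * ((n : ℝ) ^ 5 * Real.exp (-c) ^ n) := by
    intro n
    have : Real.exp (- ((n - 5 : ℝ) * (1 / 200000) ^ 2 / 4)) = Real.exp (5 * c) * Real.exp (-c) ^ n := by
      rw [← Real.exp_nat_mul, ← Real.exp_add]
      congr 1
      rw [hc]; ring
    rw [this]; ring
  simp only [h1]
  rw [← mul_zero (384 * Real.exp (5 * c))]
  apply Tendsto.const_mul
  apply tendsto_pow_const_mul_const_pow_of_abs_lt_one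
  rw [abs_of_pos (Real.exp_pos _)]
  exact Real.exp_lt_one_iff.2 (by linarith)

end prob2


section main

open Filter

open scoped Classical in
lemma pathReg_of_cnt {n : ℕ} (hn : 1000000 ≤ n) (G : SimpleGraph (Fin n))
    (h : ∀ S : Finset (Fin n), S.card ≤ 5 → ∀ T ⊆ S,
      |(cnt G S T : ℝ) - n / 2 ^ S.card| ≤ (1 / 100000 : ℝ) * n) : PathReg G := by
  apply epr_of_ext hn
  intro S hS T hT
  have h1 := h S hS T hT
  have h2 : ((|((univ.filter (fun y => y ∉ S ∧ ∀ s ∈ S, (G.Adj s y ↔ s ∈ T))).card : ℚ)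
    - (Fintype.card (Fin n) : ℚ) / 2 ^ S.card| : ℚ) : ℝ) ≤ ((eps * Fintype.card (Fin n) : ℚ) : ℝ) := by
    rw [Fintype.card_fin]
    push_cast
    unfold cnt at h1
    exact h1
  have h3 := Rat.cast_le.1 h2
  convert h3

theorem main_tendsto :
    Tendsto (fun n : ℕ => (Nat.card {G : SimpleGraph (Fin n) // PathReg G} : ℝ) / (2 : ℝ) ^ (n.choose 2))
      atTop (nhds 1) := by
  classical
  have hupper : ∀ n : ℕ, (Nat.card {G : SimpleGraph (Fin n) // PathReg G} : ℝ) / (2 : ℝ) ^ (n.choose 2) ≤ 1 := by
    intro n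
    rw [div_le_one (by positivity)]
    have : Nat.card {G : SimpleGraph (Fin n) // PathReg G} ≤ Nat.card (SimpleGraph (Fin n)) :=
      Nat.card_le_card_of_injective (fun G => G.1) Subtype.val_injective
    rw [card_graph] at this
    exact_mod_cast this
  have hlower : ∀ᶠ n : ℕ in atTop, 1 - 384 * (n : ℝ) ^ 5 * Real.exp (- ((n - 5 : ℝ) * (1 / 200000) ^ 2 / 4))
      ≤ (Nat.card {G : SimpleGraph (Fin n) // PathReg G} : ℝ) / (2 : ℝ) ^ (n.choose 2) := by
    filter_upwards [eventually_ge_atTop 1000000] with n hn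
    rw [le_div_iff₀ (by positivity)]
    have h1 := bad_all hn
    set Bad := {G : SimpleGraph (Fin n) // ¬ ∀ S : Finset (Fin n), S.card ≤ 5 → ∀ T ⊆ S,
      |(cnt G S T : ℝ) - n / 2 ^ S.card| ≤ (1 / 100000 : ℝ) * n} with hBad
    have h2 : Nat.card (SimpleGraph (Fin n)) ≤ Nat.card ({G : SimpleGraph (Fin n) // PathReg G} ⊕ Bad) := by
      apply Nat.card_le_card_of_injective (fun G : SimpleGraph (Fin n) =>
        if h : ∀ S : Finset (Fin n), S.card ≤ 5 → ∀ T ⊆ S,
          |(cnt G S T : ℝ) - n / 2 ^ S.card| ≤ (1 / 100000 : ℝ) * n then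
          (Sum.inl ⟨G, pathReg_of_cnt hn G h⟩ : {G : SimpleGraph (Fin n) // PathReg G} ⊕ Bad)
        else Sum.inr ⟨G, h⟩)
      intro G G' h
      dsimp only at h
      split_ifs at h with h3 h4 h4
      · have := Sum.inl_injective h
        exact congrArg Subtype.val this
      · have := Sum.inr_injective h
        exact congrArg Subtype.val this
    rw [Nat.card_sum, card_graph] at h2
    have h3 : (2 : ℝ) ^ n.choose 2 ≤ (Nat.card {G : SimpleGraph (Fin n) // PathReg G} : ℝ) + Nat.card Bad := by
      exact_mod_cast h2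
    nlinarith
  have hlim : Tendsto (fun n : ℕ => 1 - 384 * (n : ℝ) ^ 5 * Real.exp (- ((n - 5 : ℝ) * (1 / 200000) ^ 2 / 4)))
      atTop (nhds 1) := by
    have := tend.const_sub 1
    simpa using this
  exact tendsto_of_tendsto_of_tendsto_of_le_of_le' hlim tendsto_const_nhds hlower
    (Eventually.of_forall hupper)

end main

end Pool.Agent.Hhelper98.EPR
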